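import Mathlib

/-!
# Letter-to-letter images of episturmian words are rich

We prove that the image of an episturmian word under any letter-to-letter map is rich; in particular
this holds for all binary projections.

Proof. Let `V` be the language of a projected episturmian word. We prove for `V`

* `PA`: for every set `F` of letters, the word between two consecutive letters of `F` is a
  palindrome;
* `PB`: for every palindrome `P` (possibly empty) and every set `F` of letters, the word spanned by
  two consecutive occurrences of `P` whose two neighbouring letters are in `F` is a palindrome;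

by induction on the length of the word, for all episturmian languages and all projections at the same
time. Richness follows from `PB` with `F` the set of all letters. For the induction step let `C` be
the image of the separating letter. The language is desubstituted (`der`, `chain`) until its
separating letter is not mapped to `C`; then the projected word is a coding (`theta`) of a projection
of the desubstituted language: letters not mapped to `C` are preceded by a run `C^m`, the other
letters become runs of `C`, and the latter are isolated. The properties `PA` and `PB` of the decoded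
words imply those of `V` (`stepA`, `stepB`).
-/

set_option autoImplicit false

namespace Pool.Agent.Results.MP_8d80dd_co.ProjectionsRich

open scoped Classical

section partA

variable {α : Type*}

/-- Abstract properties of the language of an episturmian word. -/
structure Epi (L : Set (List α)) : Prop where
  fac : ∀ x w y, x ++ w ++ y ∈ L → w ∈ L
  rev : ∀ w ∈ L, w.reverse ∈ L
  spec : ∀ w w' a b a' b', a ≠ b → a' ≠ b' → a :: w ∈ L → b :: w ∈ L → a' :: w' ∈ L →
    b' :: w' ∈ L → w.length = w'.length → w = w'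
  conn : ∀ w ∈ L, ∀ w' ∈ L, ∃ t, w ++ t ++ w' ∈ L
  ne : ∃ a, [a] ∈ L

namespace Epi

variable {L : Set (List α)}

theorem fac' (h : Epi L) {w z : List α} (hz : z ∈ L) (hw : w <:+: z) : w ∈ L := by
  obtain ⟨x, y, rfl⟩ := hw
  exact h.fac x w y hz

theorem nil_mem (h : Epi L) : [] ∈ L := by
  obtain ⟨a, ha⟩ := h.ne
  exact h.fac' ha (List.nil_infix)

theorem ext_right (h : Epi L) {w : List α} (hw : w ∈ L) : ∃ c, w ++ [c] ∈ L := by
  obtain ⟨a, ha⟩ := h.ne
  obtain ⟨t, ht⟩ := h.conn w hw [a] ha
  cases t with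
  | nil => exact ⟨a, by simpa using ht⟩
  | cons c t => exact ⟨c, h.fac' ht ⟨[], t ++ [a], by simp⟩⟩

theorem ext_left (h : Epi L) {w : List α} (hw : w ∈ L) : ∃ c, c :: w ∈ L := by
  obtain ⟨c, hc⟩ := h.ext_right (h.rev w hw)
  exact ⟨c, by simpa using h.rev _ hc⟩

/-- `a` occurs in every factor of length two -/
def Sep (L : Set (List α)) (a : α) : Prop := ∀ x y, [x, y] ∈ L → x = a ∨ y = a

theorem walk (h : Epi L) {x y : α} (hxy : [x, y] ∈ L)
    (hx : ∀ c d, [c, x] ∈ L → [d, x] ∈ L → c = d) (hy : ∀ c d, [c, y] ∈ L → [d, y] ∈ L → c = d) :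
    ∀ (w : List α) (p : α), p :: w ∈ L → (p = x ∨ p = y) → ∀ q ∈ w, q = x ∨ q = y := by
  have hyx : [y, x] ∈ L := by simpa using h.rev _ hxy
  intro w
  induction w with
  | nil => intro p _ _ q hq; simp at hq
  | cons r w ih =>
    intro p hp hpxy q hq
    have h1 : [p, r] ∈ L := h.fac' hp ⟨[], w, by simp⟩
    have h2 : [r, p] ∈ L := by simpa using h.rev _ h1
    have h3 : r = x ∨ r = y := by
      rcases hpxy with rfl | rfl
      · right; exact hx _ _ h2 hyx
      · left; exact hy _ _ h2 hxy
    have h4 : r :: w ∈ L := h.fac' hp ⟨[p], [], by simp⟩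
    rcases List.mem_cons.1 hq with rfl | hq
    · exact h3
    · exact ih r h4 h3 q hq

theorem exists_sep (h : Epi L) : ∃ a, [a] ∈ L ∧ Sep L a := by
  have key : ∀ x y, [x, y] ∈ L → (∀ c d, [c, x] ∈ L → [d, x] ∈ L → c = d) →
      (∀ c d, [c, y] ∈ L → [d, y] ∈ L → c = d) → ∀ w ∈ L, ∀ q ∈ w, q = x ∨ q = y := by
    intro x y hxy hx hy w hw q hq
    obtain ⟨t, ht⟩ := h.conn _ hxy w hw
    have := h.walk hxy hx hy ([y] ++ t ++ w) x (by simpa using ht) (Or.inl rfl) q (by simp [hq])
    exact this
  by_cases hs : ∃ a, ∃ c d, c ≠ d ∧ [c, a] ∈ L ∧ [d, a] ∈ L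
  · obtain ⟨a, c, d, hcd, hca, hda⟩ := hs
    have haL : [a] ∈ L := h.fac' hca ⟨[c], [], by simp⟩
    refine ⟨a, haL, ?_⟩
    intro x y hxy
    by_contra hne
    push Not at hne
    have hx : ∀ c' d', [c', x] ∈ L → [d', x] ∈ L → c' = d' := by
      intro c' d' h1 h2
      by_contra h3
      have := h.spec [x] [a] c' d' c d h3 hcd h1 h2 hca hda rfl
      exact hne.1 (by simpa using this)
    have hy : ∀ c' d', [c', y] ∈ L → [d', y] ∈ L → c' = d' := by
      intro c' d' h1 h2
      by_contra h3
      have := h.spec [y] [a] c' d' c d h3 hcd h1 h2 hca hda rfl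
      exact hne.2 (by simpa using this)
    rcases key x y hxy hx hy [a] haL a (by simp) with h1 | h1
    · exact hne.1 h1.symm
    · exact hne.2 h1.symm
  · push Not at hs
    have hs' : ∀ a c d, [c, a] ∈ L → [d, a] ∈ L → c = d := by
      intro a c d h1 h2
      by_contra h3
      exact hs a c d h3 h1 h2
    obtain ⟨x, hx⟩ := h.ne
    obtain ⟨y, hy⟩ := h.ext_right hx
    have hxy : [x, y] ∈ L := by simpa using hy
    have hyx : [y, x] ∈ L := by simpa using h.rev _ hxy
    refine ⟨x, hx, ?_⟩
    intro x' y' h1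
    rcases key x y hxy (hs' x) (hs' y) _ h1 x' (by simp) with h2 | h2
    · exact Or.inl h2
    · right
      have h3 : [y', x'] ∈ L := by simpa using h.rev _ h1
      rw [h2] at h3
      exact hs' _ _ _ h3 hxy

end Epi

/-- the morphism `a ↦ a`, `b ↦ ab` for `b ≠ a` -/
noncomputable def psi (a : α) (w : List α) : List α :=
  w.flatMap (fun b => if b = a then [a] else [a, b])

theorem psi_nil (a : α) : psi a [] = [] := rfl

theorem psi_append (a : α) (w w' : List α) : psi a (w ++ w') = psi a w ++ psi a w' := by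
  simp [psi]

theorem psi_cons (a b : α) (w : List α) :
    psi a (b :: w) = (if b = a then [a] else [a, b]) ++ psi a w := by
  simp [psi]

theorem psi_head (a : α) (w : List α) : ∃ r, psi a w ++ [a] = a :: r := by
  cases w with
  | nil => exact ⟨[], rfl⟩
  | cons b w =>
    rw [psi_cons]
    by_cases h : b = a
    · exact ⟨psi a w ++ [a], by simp [h]⟩
    · exact ⟨b :: (psi a w ++ [a]), by simp [h]⟩

theorem psi_reverse (a : α) (w : List α) :
    (psi a w ++ [a]).reverse = psi a w.reverse ++ [a] := by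
  induction w with
  | nil => simp [psi]
  | cons b w ih =>
    rw [psi_cons, List.append_assoc, List.reverse_append, ih, List.reverse_cons, psi_append,
      psi_cons, psi_nil]
    by_cases h : b = a <;> simp [h]

theorem psi_length (a : α) (w : List α) : w.length ≤ (psi a w).length := by
  induction w with
  | nil => simp
  | cons b w ih =>
    rw [psi_cons]
    by_cases h : b = a <;> simp [h] <;> omega

theorem psi_inj_prefix (a : α) : ∀ (w w' : List α), psi a w ++ [a] <+: psi a w' ++ [a] → w <+: w' := by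
  intro w
  induction w with
  | nil => intro w' _; exact List.nil_prefix
  | cons b w ih =>
    intro w' hp
    cases w' with
    | nil =>
      exfalso
      have := hp.length_le
      rw [psi_cons, psi_nil] at this
      by_cases h : b = a <;> simp [h] at this
    | cons c w' =>
      rw [psi_cons, psi_cons] at hp
      obtain ⟨r, hr⟩ := psi_head a w
      obtain ⟨r', hr'⟩ := psi_head a w'
      by_cases hb : b = a <;> by_cases hc : c = a
      · subst hb; subst hc
        simp only [if_true, List.nil_append, List.cons_append, List.cons_prefix_cons,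
          true_and] at hp
        exact List.cons_prefix_cons.2 ⟨rfl, ih w' hp⟩
      · exfalso
        rw [if_pos hb, if_neg hc, List.append_assoc, hr] at hp
        simp only [List.nil_append, List.cons_append, List.cons_prefix_cons] at hp
        exact hc hp.2.1.symm
      · exfalso
        rw [if_neg hb, if_pos hc, List.append_assoc [a] , hr'] at hp
        simp only [List.nil_append, List.cons_append, List.cons_prefix_cons] at hp
        exact hb hp.2.1
      · rw [if_neg hb, if_neg hc] at hp
        simp only [List.cons_append, List.cons_prefix_cons, List.nil_append, true_and] at hp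
        obtain ⟨h1, h2⟩ := hp
        exact List.cons_prefix_cons.2 ⟨h1, ih w' h2⟩

/-- the desubstituted language -/
def der (L : Set (List α)) (a : α) : Set (List α) := {w | psi a w ++ [a] ∈ L}

theorem decode_psi {L : Set (List α)} (h : Epi L) {a : α} (hs : Epi.Sep L a) :
    ∀ (n : ℕ) (w : List α), w.length ≤ n → a :: w ∈ L → (w = [] ∨ ∃ r, w = r ++ [a]) →
      ∃ w', a :: w = psi a w' ++ [a] := by
  intro n
  induction n with
  | zero =>
    intro w hw _ _
    have : w = [] := List.length_eq_zero_iff.1 (by omega)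
    subst this
    exact ⟨[], rfl⟩
  | succ n ih =>
    intro w hw haw hend
    cases w with
    | nil => exact ⟨[], rfl⟩
    | cons b w =>
      by_cases hb : b = a
      · subst hb
        have h1 : b :: w ∈ L := h.fac' haw ⟨[b], [], by simp⟩
        have h2 : w = [] ∨ ∃ r, w = r ++ [b] := by
          rcases hend with h3 | ⟨r, hr⟩
          · simp at h3
          · cases r with
            | nil => left; simpa using hr
            | cons c r => right; exact ⟨r, by simpa using (List.cons_eq_cons.1 hr).2⟩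
        obtain ⟨w', hw'⟩ := ih w (by simp at hw; omega) h1 h2
        exact ⟨b :: w', by rw [psi_cons, hw']; simp⟩
      · rcases hend with h3 | ⟨r, hr⟩
        · simp at h3
        · cases r with
          | nil =>
            exfalso
            simp at hr
            exact hb hr.1
          | cons c r =>
            have hbw : w = r ++ [a] := by simpa using (List.cons_eq_cons.1 hr).2
            cases w with
            | nil => simp at hbw
            | cons d w =>
              have h4 : [b, d] ∈ L := h.fac' haw ⟨[a], w, by simp⟩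
              have hd : d = a := by
                rcases hs _ _ h4 with h5 | h5
                · exact absurd h5 hb
                · exact h5
              subst hd
              have h1 : d :: w ∈ L := h.fac' haw ⟨[d, b], [], by simp⟩
              have h2 : w = [] ∨ ∃ r, w = r ++ [d] := by
                cases r with
                | nil => left; simpa using hbw
                | cons c r => right; exact ⟨r, by simpa using (List.cons_eq_cons.1 hbw).2⟩
              obtain ⟨w', hw'⟩ := ih w (by simp at hw; omega) h1 h2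
              exact ⟨b :: w', by rw [psi_cons, hw', if_neg hb]; simp⟩

/-- every word of `L` is a factor of `psi a w'` with `w'` in the derived language -/
theorem cover {L : Set (List α)} (h : Epi L) {a : α} (ha : [a] ∈ L) (hs : Epi.Sep L a)
    {w : List α} (hw : w ∈ L) : ∃ w' ∈ der L a, w <:+: psi a w' := by
  obtain ⟨t, ht⟩ := h.conn _ ha w hw
  obtain ⟨t', ht'⟩ := h.conn _ ht _ ha
  have h1 : a :: (t ++ w ++ t' ++ [a]) ∈ L := by simpa using ht'
  obtain ⟨w', hw'⟩ := decode_psi h hs _ _ le_rfl h1 (Or.inr ⟨_, rfl⟩)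
  refine ⟨w', ?_, ?_⟩
  · change psi a w' ++ [a] ∈ L
    rw [← hw']; exact h1
  · have h2 : psi a w' = a :: (t ++ w ++ t') := by
      have : psi a w' ++ [a] = (a :: (t ++ w ++ t')) ++ [a] := by rw [← hw']; simp
      exact List.append_cancel_right this
    rw [h2]
    exact ⟨a :: t, t', by simp⟩

theorem der_epi {L : Set (List α)} (h : Epi L) {a : α} (ha : [a] ∈ L) (hs : Epi.Sep L a) :
    Epi (der L a) := by
  refine ⟨?_, ?_, ?_, ?_, ?_⟩
  · intro x w y hxy
    change psi a (x ++ w ++ y) ++ [a] ∈ L at hxy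
    change psi a w ++ [a] ∈ L
    obtain ⟨r, hr⟩ := psi_head a y
    rw [psi_append, psi_append, List.append_assoc _ _ [a], hr] at hxy
    exact h.fac' hxy ⟨psi a x, r, by simp⟩
  · intro w hw
    change psi a w ++ [a] ∈ L at hw
    change psi a w.reverse ++ [a] ∈ L
    rw [← psi_reverse]
    exact h.rev _ hw
  · intro w w' a1 b1 a2 b2 h1 h2 k1 k2 k3 k4 hlen
    have last : ∀ (c : α) (w : List α), c :: w ∈ der L a → c :: (psi a w ++ [a]) ∈ L := by
      intro c w hc
      change psi a (c :: w) ++ [a] ∈ L at hc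
      rw [psi_cons] at hc
      by_cases hca : c = a
      · subst hca
        simpa using hc
      · rw [if_neg hca] at hc
        exact h.fac' hc ⟨[a], [], by simp⟩
    have main : ∀ (w w' : List α) (a1 b1 a2 b2 : α), a1 ≠ b1 → a2 ≠ b2 → a1 :: w ∈ der L a →
        b1 :: w ∈ der L a → a2 :: w' ∈ der L a → b2 :: w' ∈ der L a → w.length = w'.length →
        (psi a w).length ≤ (psi a w').length → w = w' := by
      intro w w' a1 b1 a2 b2 h1 h2 k1 k2 k3 k4 hlen hle
      have e1 := last _ _ k1
      have e2 := last _ _ k2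
      have e3 := last _ _ k3
      have e4 := last _ _ k4
      have hpre : (psi a w' ++ [a]).take (psi a w ++ [a]).length <+: psi a w' ++ [a] :=
        List.take_prefix _ _
      have hlen2 : ((psi a w' ++ [a]).take (psi a w ++ [a]).length).length =
          (psi a w ++ [a]).length := by
        rw [List.length_take]
        simp
        omega
      have e5 : a2 :: (psi a w' ++ [a]).take (psi a w ++ [a]).length ∈ L :=
        h.fac' e3 (List.IsPrefix.isInfix (List.cons_prefix_cons.2 ⟨rfl, hpre⟩))
      have e6 : b2 :: (psi a w' ++ [a]).take (psi a w ++ [a]).length ∈ L :=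
        h.fac' e4 (List.IsPrefix.isInfix (List.cons_prefix_cons.2 ⟨rfl, hpre⟩))
      have e7 := h.spec _ _ _ _ _ _ h1 h2 e1 e2 e5 e6 hlen2.symm
      have e8 : psi a w ++ [a] <+: psi a w' ++ [a] := by
        rw [e7]; exact hpre
      have e9 := psi_inj_prefix a w w' e8
      exact e9.eq_of_length hlen
    rcases le_total (psi a w).length (psi a w').length with hle | hle
    · exact main w w' a1 b1 a2 b2 h1 h2 k1 k2 k3 k4 hlen hle
    · exact (main w' w a2 b2 a1 b1 h2 h1 k3 k4 k1 k2 hlen.symm hle).symm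
  · intro w hw w' hw'
    change psi a w ++ [a] ∈ L at hw
    change psi a w' ++ [a] ∈ L at hw'
    obtain ⟨t, ht⟩ := h.conn _ hw _ hw'
    obtain ⟨r, hr⟩ := psi_head a w'
    have h1 : a :: (t ++ [a]) ∈ L := by
      rw [hr] at ht
      exact h.fac' ht ⟨psi a w, r, by simp⟩
    obtain ⟨t', ht'⟩ := decode_psi h hs _ _ le_rfl h1 (Or.inr ⟨_, rfl⟩)
    have h2 : a :: t = psi a t' := by
      have : (a :: t) ++ [a] = psi a t' ++ [a] := by rw [← ht']; simp
      exact List.append_cancel_right this
    refine ⟨t', ?_⟩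
    change psi a (w ++ t' ++ w') ++ [a] ∈ L
    rw [psi_append, psi_append, ← h2]
    have : psi a w ++ a :: t ++ psi a w' ++ [a] = psi a w ++ [a] ++ t ++ (psi a w' ++ [a]) := by simp
    rw [this]
    exact ht
  · obtain ⟨w', hw', x, y, hxy⟩ := cover h ha hs ha
    cases w' with
    | nil => simp [psi_nil] at hxy
    | cons b w' =>
      refine ⟨b, ?_⟩
      change psi a [b] ++ [a] ∈ L
      change psi a (b :: w') ++ [a] ∈ L at hw'
      obtain ⟨r, hr⟩ := psi_head a w'
      rw [show b :: w' = [b] ++ w' by rfl, psi_append, List.append_assoc, hr] at hw'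
      exact h.fac' hw' ⟨[], r, by simp⟩

end partA

section partB

variable {α : Type*} {β : Type*}

/-- letters of `K` become runs of `C`, other letters are preceded by a run of `C` of length `m` -/
noncomputable def cod (K : Set α) (C : β) (ζ : α → β) (m : ℕ) (ℓ : α → ℕ) (w : List α) : List β :=
  w.flatMap (fun b => if b ∈ K then List.replicate (ℓ b) C else List.replicate m C ++ [ζ b])

theorem cod_append (K : Set α) (C : β) (ζ : α → β) (m : ℕ) (ℓ : α → ℕ) (w w' : List α) :
    cod K C ζ m ℓ (w ++ w') = cod K C ζ m ℓ w ++ cod K C ζ m ℓ w' := by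
  simp [cod]

theorem cod_cons (K : Set α) (C : β) (ζ : α → β) (m : ℕ) (ℓ : α → ℕ) (b : α) (w : List α) :
    cod K C ζ m ℓ (b :: w) =
      (if b ∈ K then List.replicate (ℓ b) C else List.replicate m C ++ [ζ b]) ++ cod K C ζ m ℓ w := by
  simp [cod]

theorem cod_infix (K : Set α) (C : β) (ζ : α → β) (m : ℕ) (ℓ : α → ℕ) {w w' : List α}
    (h : w <:+: w') : cod K C ζ m ℓ w <:+: cod K C ζ m ℓ w' := by
  obtain ⟨x, y, rfl⟩ := h
  exact ⟨cod K C ζ m ℓ x, cod K C ζ m ℓ y, by rw [cod_append, cod_append]⟩

theorem cod_psi (K : Set α) (C : β) (ζ : α → β) (m : ℕ) (ℓ : α → ℕ) {x : α} (hx : x ∈ K)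
    (w : List α) : cod K C ζ m ℓ (psi x w) =
      cod K C ζ (ℓ x + m) (fun e => if e = x then ℓ x else ℓ x + ℓ e) w := by
  induction w with
  | nil => rfl
  | cons b w ih =>
    rw [psi_cons, cod_append, ih, cod_cons]
    congr 1
    by_cases h : b = x
    · subst h
      simp [cod, hx]
    · by_cases hb : b ∈ K
      · rw [if_neg h, if_pos hb, if_neg h, List.replicate_add]
        simp only [cod, List.flatMap_cons, List.flatMap_nil, if_pos hx, if_pos hb, List.append_nil]
      · rw [if_neg h, if_neg hb, List.replicate_add]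
        simp only [cod, List.flatMap_cons, List.flatMap_nil, if_pos hx, if_neg hb, List.append_nil,
          List.append_assoc]

theorem chain (K : Set α) (C : β) (ζ : α → β) : ∀ (n : ℕ) (L : Set (List α)) (m : ℕ) (ℓ : α → ℕ),
    Epi L → (∃ b t b', b ∉ K ∧ b' ∉ K ∧ (∀ e ∈ t, e ∈ K) ∧ t.length ≤ n ∧ b :: (t ++ [b']) ∈ L) →
    ∃ (L' : Set (List α)) (m' : ℕ) (ℓ' : α → ℕ) (d : α), Epi L' ∧ Epi.Sep L' d ∧ d ∉ K ∧ m ≤ m' ∧
      (∀ e, ℓ e ≤ ℓ' e) ∧ ∀ w ∈ L, ∃ w' ∈ L', cod K C ζ m ℓ w <:+: cod K C ζ m' ℓ' w' := by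
  intro n
  induction n with
  | zero =>
    intro L m ℓ h ⟨b, t, b', hb, hb', ht, htn, hL⟩
    have ht0 : t = [] := List.length_eq_zero_iff.1 (by omega)
    subst ht0
    obtain ⟨x, hx, hs⟩ := h.exists_sep
    have hxK : x ∉ K := by
      rcases hs b b' (by simpa using hL) with h1 | h1
      · rw [← h1]; exact hb
      · rw [← h1]; exact hb'
    exact ⟨L, m, ℓ, x, h, hs, hxK, le_rfl, fun _ => le_rfl, fun w hw => ⟨w, hw, List.infix_refl _⟩⟩
  | succ n ih =>
    intro L m ℓ h ⟨b, t, b', hb, hb', ht, htn, hL⟩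
    obtain ⟨x, hx, hs⟩ := h.exists_sep
    by_cases hxK : x ∉ K
    · exact ⟨L, m, ℓ, x, h, hs, hxK, le_rfl, fun _ => le_rfl,
        fun w hw => ⟨w, hw, List.infix_refl _⟩⟩
    push Not at hxK
    have hbx : b ≠ x := by rintro rfl; exact hb hxK
    have hbx' : b' ≠ x := by rintro rfl; exact hb' hxK
    -- extend by x on both sides
    obtain ⟨c, hc⟩ := h.ext_left hL
    obtain ⟨c', hc'⟩ := h.ext_right hc
    have hcx : c = x := by
      have : [c, b] ∈ L := h.fac' hc ⟨[], t ++ [b'], by simp⟩
      rcases hs _ _ this with h1 | h1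
      · exact h1
      · exact absurd h1 hbx
    have hcx' : c' = x := by
      have : [b', c'] ∈ L := h.fac' hc' ⟨c :: b :: t, [], by simp⟩
      rcases hs _ _ this with h1 | h1
      · exact absurd h1 hbx'
      · exact h1
    subst hcx
    subst hcx'
    cases t with
    | nil =>
      exfalso
      rcases hs b b' (by simpa using hL) with h1 | h1
      · exact hbx h1
      · exact hbx' h1
    | cons t0 t1 =>
      have ht0 : t0 = c' := by
        have : [b, t0] ∈ L := h.fac' hL ⟨[], t1 ++ [b'], by simp⟩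
        rcases hs _ _ this with h1 | h1
        · exact absurd h1 hbx
        · exact h1
      subst ht0
      have htL : t0 :: t1 ∈ L := h.fac' hL ⟨[b], [b'], by simp⟩
      have hend : t1 = [] ∨ ∃ r, t1 = r ++ [t0] := by
        rcases List.eq_nil_or_concat t1 with h1 | ⟨r, z, h1⟩
        · exact Or.inl h1
        · right
          refine ⟨r, ?_⟩
          have : [z, b'] ∈ L := h.fac' hL ⟨b :: t0 :: r, [], by simp [h1]⟩
          rcases hs _ _ this with h2 | h2
          · rw [h1, h2, List.concat_eq_append]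
          · exact absurd h2 hbx'
      obtain ⟨t', ht'⟩ := decode_psi h hs _ _ le_rfl htL hend
      have hlen : t'.length < (t0 :: t1).length := by
        rw [ht', List.length_append]
        have := psi_length t0 t'
        simp
        omega
      have hder : b :: (t' ++ [b']) ∈ der L t0 := by
        change psi t0 (b :: (t' ++ [b'])) ++ [t0] ∈ L
        rw [psi_cons, psi_append, psi_cons, psi_nil, if_neg hbx, if_neg hbx']
        have e : [t0, b] ++ (psi t0 t' ++ ([t0, b'] ++ [])) ++ [t0] =
            t0 :: b :: ((psi t0 t' ++ [t0]) ++ [b']) ++ [t0] := by simp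
        rw [e, ← ht']
        exact hc'
      have ht'K : ∀ e ∈ t', e ∈ K := by
        intro e he
        by_cases hex : e = t0
        · rw [hex]; exact hxK
        · apply ht
          rw [ht', List.mem_append]
          left
          rw [psi, List.mem_flatMap]
          exact ⟨e, he, by simp [hex]⟩
      obtain ⟨L', m', ℓ', d, h1, h2, h3, h4, h5, h6⟩ := ih (der L t0) (ℓ t0 + m)
        (fun e => if e = t0 then ℓ t0 else ℓ t0 + ℓ e) (der_epi h hx hs)
        ⟨b, t', b', hb, hb', ht'K, by simp at htn hlen ⊢; omega, hder⟩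
      refine ⟨L', m', ℓ', d, h1, h2, h3, by omega, ?_, ?_⟩
      · intro e
        refine le_trans ?_ (h5 e)
        by_cases he : e = t0
        · simp [he]
        · simp [he]
      · intro w hw
        obtain ⟨w1, hw1, hw2⟩ := cover h hx hs hw
        obtain ⟨w2, hw3, hw4⟩ := h6 w1 hw1
        refine ⟨w2, hw3, ?_⟩
        refine List.IsInfix.trans ?_ hw4
        rw [← cod_psi K C ζ m ℓ hxK]
        exact cod_infix K C ζ m ℓ hw2

/-- the coding of words over `β ⊕ ℕ` -/
def theta (m : ℕ) (C : β) (y : List (β ⊕ ℕ)) : List β :=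
  y.flatMap (fun g => match g with
    | Sum.inl D => List.replicate m C ++ [D]
    | Sum.inr n => List.replicate n C)

theorem theta_nil (m : ℕ) (C : β) : theta m C [] = [] := rfl

theorem theta_append (m : ℕ) (C : β) (y y' : List (β ⊕ ℕ)) :
    theta m C (y ++ y') = theta m C y ++ theta m C y' := by
  simp [theta]

theorem theta_inl (m : ℕ) (C : β) (D : β) (y : List (β ⊕ ℕ)) :
    theta m C (Sum.inl D :: y) = List.replicate m C ++ D :: theta m C y := by
  simp [theta]

theorem theta_inr (m : ℕ) (C : β) (n : ℕ) (y : List (β ⊕ ℕ)) :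
    theta m C (Sum.inr n :: y) = List.replicate n C ++ theta m C y := by
  simp [theta]

theorem cod_eq_theta (K : Set α) (C : β) (ζ : α → β) (m : ℕ) (ℓ : α → ℕ) (w : List α) :
    cod K C ζ m ℓ w =
      theta m C (w.map (fun b => if b ∈ K then Sum.inr (ℓ b) else Sum.inl (ζ b))) := by
  induction w with
  | nil => rfl
  | cons b w ih =>
    rw [cod_cons, List.map_cons]
    by_cases h : b ∈ K
    · rw [if_pos h, if_pos h, theta_inr, ih]
    · rw [if_neg h, if_neg h, theta_inl, ih]
      simp

/-- the structure of the words which are decoded -/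
structure YL (Y : Set (List (β ⊕ ℕ))) (C D0 : β) : Prop where
  fac : ∀ x w y, x ++ w ++ y ∈ Y → w ∈ Y
  rev : ∀ w ∈ Y, w.reverse ∈ Y
  extr : ∀ w ∈ Y, ∃ c, w ++ [c] ∈ Y
  pair : ∀ x y, [x, y] ∈ Y → x = Sum.inl D0 ∨ y = Sum.inl D0
  neC : ∀ D, [Sum.inl D] ∈ Y → D ≠ C
  pos : ∀ n, [Sum.inr n] ∈ Y → 1 ≤ n
  d0 : D0 ≠ C

/-- between two consecutive letters of `F` there is a palindrome -/
def PA {γ : Type*} (V : Set (List γ)) (N : ℕ) : Prop :=
  ∀ (F : Set γ) (f f' : γ) (t : List γ), f ∈ F → f' ∈ F → f :: (t ++ [f']) ∈ V →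
    t.length + 2 ≤ N → (∀ x ∈ t, x ∉ F) → t.reverse = t

/-- between two consecutive occurrences of the palindrome `P` flanked by letters of `F` there is a
palindrome -/
def PB {γ : Type*} (V : Set (List γ)) (N : ℕ) : Prop :=
  ∀ (F : Set γ) (P : List γ) (f f' : γ) (R : List γ), P.reverse = P → f ∈ F → f' ∈ F →
    f :: (R ++ [f']) ∈ V → R.length + 2 ≤ N →
    (∃ x s, x ∈ F ∧ R = P ++ x :: s) → (∃ x s, x ∈ F ∧ R = s ++ x :: P) →
    (∀ u g g' u', g ∈ F → g' ∈ F → f :: (R ++ [f']) = u ++ g :: (P ++ g' :: u') →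
      u = [] ∨ u' = []) → R.reverse = R

end partB

section partC

variable {β : Type*}

theorem rep_split {C D : β} (hD : D ≠ C) : ∀ (m : ℕ) (A X X' : List β),
    List.replicate m C ++ A = X ++ D :: X' → ∃ X2, X = List.replicate m C ++ X2 ∧
      A = X2 ++ D :: X' := by
  intro m
  induction m with
  | zero => intro A X X' h; exact ⟨X, by simp, by simpa using h⟩
  | succ m ih =>
    intro A X X' h
    rw [List.replicate_succ, List.cons_append] at h
    cases X with
    | nil =>
      exfalso
      rw [List.nil_append] at h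
      exact hD (List.cons_eq_cons.1 h).1.symm
    | cons c X =>
      rw [List.cons_append] at h
      obtain ⟨h1, h2⟩ := List.cons_eq_cons.1 h
      obtain ⟨X2, h3, h4⟩ := ih A X X' h2
      exact ⟨X2, by rw [← h1, h3, List.replicate_succ, List.cons_append], h4⟩

theorem cmpR {C h : β} (hh : h ≠ C) : ∀ (r p : ℕ) (f : β) (A B : List β),
    List.replicate r C ++ h :: A = List.replicate p C ++ f :: B → (p < r ∧ f = C) ∨
      (p = r ∧ f = h ∧ A = B) := by
  intro r
  induction r with
  | zero =>
    intro p f A B he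
    cases p with
    | zero =>
      right
      simp only [List.replicate_zero, List.nil_append, List.cons.injEq] at he
      exact ⟨rfl, he.1.symm, he.2⟩
    | succ p =>
      exfalso
      rw [List.replicate_succ] at he
      simp only [List.replicate_zero, List.nil_append, List.cons_append, List.cons.injEq] at he
      exact hh he.1
  | succ r ih =>
    intro p f A B he
    cases p with
    | zero =>
      left
      rw [List.replicate_succ] at he
      simp only [List.replicate_zero, List.nil_append, List.cons_append, List.cons.injEq] at he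
      exact ⟨Nat.succ_pos _, he.1.symm⟩
    | succ p =>
      rw [List.replicate_succ, List.replicate_succ] at he
      simp only [List.cons_append, List.cons.injEq, true_and] at he
      rcases ih p f A B he with h1 | ⟨h1, h2⟩
      · left; exact ⟨Nat.succ_lt_succ h1.1, h1.2⟩
      · right; exact ⟨by rw [h1], h2⟩

theorem cmpL {C h : β} (hh : h ≠ C) (r p : ℕ) (f : β) (A B : List β)
    (he : A ++ h :: List.replicate r C = B ++ f :: List.replicate p C) :
    (p < r ∧ f = C) ∨ (p = r ∧ f = h ∧ A = B) := by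
  have := congrArg List.reverse he
  simp only [List.reverse_append, List.reverse_cons, List.reverse_replicate,
    List.append_assoc, List.nil_append, List.cons_append] at this
  rcases cmpR hh r p f _ _ this with h1 | ⟨h1, h2, h3⟩
  · exact Or.inl h1
  · exact Or.inr ⟨h1, h2, List.reverse_injective h3⟩

theorem extR {C h : β} {F : Set β} {r i : ℕ} (hF : (i < r ∧ C ∈ F) ∨ (i = r ∧ h ∈ F))
    (A : List β) : ∃ f B, f ∈ F ∧ List.replicate r C ++ h :: A = List.replicate i C ++ f :: B := by
  rcases hF with ⟨h1, h2⟩ | ⟨h1, h2⟩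
  · refine ⟨C, List.replicate (r - i - 1) C ++ h :: A, h2, ?_⟩
    have : List.replicate r C = List.replicate i C ++ C :: List.replicate (r - i - 1) C := by
      rw [← List.replicate_succ, ← List.replicate_add]
      congr 1
      omega
    rw [this]
    simp
  · exact ⟨h, A, h2, by rw [h1]⟩

theorem extL {C h : β} {F : Set β} {r i : ℕ} (hF : (i < r ∧ C ∈ F) ∨ (i = r ∧ h ∈ F))
    (A : List β) : ∃ f B, f ∈ F ∧ A ++ h :: List.replicate r C = B ++ f :: List.replicate i C := by
  obtain ⟨f, B, hf, he⟩ := extR (h := h) hF A.reverse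
  refine ⟨f, B.reverse, hf, ?_⟩
  have := congrArg List.reverse he
  simp only [List.reverse_append, List.reverse_cons, List.reverse_replicate,
    List.append_assoc, List.reverse_reverse, List.nil_append, List.cons_append] at this
  exact this

theorem trimL (C : β) : ∀ R : List β, ∃ p W, R = List.replicate p C ++ W ∧
    (W = [] ∨ ∃ D M, W = D :: M ∧ D ≠ C) := by
  intro R
  induction R with
  | nil => exact ⟨0, [], by simp, Or.inl rfl⟩
  | cons a R ih =>
    by_cases h : a = C
    · obtain ⟨p, W, h1, h2⟩ := ih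
      exact ⟨p + 1, W, by rw [h1, h, List.replicate_succ, List.cons_append], h2⟩
    · exact ⟨0, a :: R, by simp, Or.inr ⟨a, R, rfl, h⟩⟩

/-- `W` begins and ends with a letter different from `C` -/
def BrW (C : β) (W : List β) : Prop :=
  (∃ D M, W = D :: M ∧ D ≠ C) ∧ ∃ D M, W = M ++ [D] ∧ D ≠ C

theorem BrW.rev {C : β} {W : List β} (h : BrW C W) : BrW C W.reverse := by
  obtain ⟨⟨D, M, h1, h2⟩, D', M', h3, h4⟩ := h
  exact ⟨⟨D', M'.reverse, by rw [h3]; simp, h4⟩, D, M.reverse, by rw [h1]; simp, h2⟩

theorem trim (C : β) (R : List β) : (∃ p, R = List.replicate p C) ∨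
    ∃ p W p', R = List.replicate p C ++ W ++ List.replicate p' C ∧ BrW C W := by
  obtain ⟨p, W, h1, h2⟩ := trimL C R
  rcases h2 with h2 | ⟨D, M, h2, hD⟩
  · left; exact ⟨p, by rw [h1, h2]; simp⟩
  · right
    obtain ⟨p', W', h3, h4⟩ := trimL C W.reverse
    have h5 : W = W'.reverse ++ List.replicate p' C := by
      have := congrArg List.reverse h3
      simpa using this
    rcases h4 with h4 | ⟨D', M', h4, hD'⟩
    · exfalso
      rw [h4, h2] at h5
      cases p' with
      | zero => simp at h5
      | succ p' =>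
        rw [List.replicate_succ] at h5
        simp at h5
        exact hD h5.1
    · refine ⟨p, W'.reverse, p', by rw [h1, List.append_assoc, ← h5], ?_, D', M'.reverse, ?_, hD'⟩
      · -- W'.reverse starts with D
        rw [h4] at h5
        cases hM : M'.reverse with
        | nil =>
          refine ⟨D', [], ?_, hD'⟩
          rw [h4]; simp [hM]
        | cons a s =>
          refine ⟨D, s ++ [D'], ?_, hD⟩
          rw [h4, List.reverse_cons, hM]
          rw [List.reverse_cons, hM, h2] at h5
          simp only [List.cons_append, List.cons.injEq] at h5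
          rw [h5.1]
          rfl
      · rw [h4]; simp

theorem lead {C D E : β} {p i : ℕ} {A B : List β} (hD : D ≠ C) (hE : E ≠ C)
    (h : List.replicate p C ++ D :: A = List.replicate i C ++ E :: B) :
    i = p ∧ E = D ∧ A = B := by
  rcases cmpR hD _ _ _ _ _ h with h1 | h1
  · exact absurd h1.2 hE
  · exact h1

theorem trim_pal {C : β} {P : List β} (hP : P.reverse = P) : (∃ k, P = List.replicate k C) ∨
    ∃ i Q, P = List.replicate i C ++ Q ++ List.replicate i C ∧ BrW C Q ∧ Q.reverse = Q := by
  rcases trim C P with h | ⟨i, Q, i', h, hQ⟩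
  · exact Or.inl h
  · right
    have h1 : List.replicate i C ++ Q ++ List.replicate i' C =
        List.replicate i' C ++ Q.reverse ++ List.replicate i C := by
      rw [← h, ← hP, h]
      simp
    obtain ⟨⟨D, M, h2, hD⟩, _⟩ := id hQ
    obtain ⟨⟨D', M', h3, hD'⟩, _⟩ := hQ.rev
    have h4 : List.replicate i C ++ D :: (M ++ List.replicate i' C) =
        List.replicate i' C ++ D' :: (M' ++ List.replicate i C) := by
      rw [h3, h2] at h1
      simpa using h1
    obtain ⟨h5, h6, h7⟩ := lead hD hD' h4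
    subst h5
    refine ⟨i', Q, h, hQ, ?_⟩
    rw [h3, h2, h6]
    have := List.append_cancel_right h7
    rw [this]

variable {m : ℕ} {C D0 : β}

theorem theta_split {D : β} (hD : D ≠ C) : ∀ (y : List (β ⊕ ℕ)) (X X' : List β),
    theta m C y = X ++ D :: X' → ∃ y1 y2, y = y1 ++ Sum.inl D :: y2 ∧
      X = theta m C y1 ++ List.replicate m C ∧ X' = theta m C y2 := by
  intro y
  induction y with
  | nil =>
    intro X X' h
    rw [theta_nil] at h
    simp at h
  | cons g y ih =>
    intro X X' h
    cases g with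
    | inl E =>
      rw [theta_inl] at h
      obtain ⟨X2, h1, h2⟩ := rep_split hD _ _ _ _ h
      cases X2 with
      | nil =>
        rw [List.nil_append] at h2
        obtain ⟨h3, h4⟩ := List.cons_eq_cons.1 h2
        exact ⟨[], y, by rw [h3]; rfl, by rw [h1, theta_nil]; simp, h4.symm⟩
      | cons c X2 =>
        rw [List.cons_append] at h2
        obtain ⟨h3, h4⟩ := List.cons_eq_cons.1 h2
        obtain ⟨y1, y2, h5, h6, h7⟩ := ih X2 X' h4
        refine ⟨Sum.inl E :: y1, y2, by rw [h5]; rfl, ?_, h7⟩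
        rw [h1, theta_inl, ← h3, h6]
        simp
    | inr n =>
      rw [theta_inr] at h
      obtain ⟨X2, h1, h2⟩ := rep_split hD _ _ _ _ h
      obtain ⟨y1, y2, h5, h6, h7⟩ := ih X2 X' h2
      refine ⟨Sum.inr n :: y1, y2, by rw [h5]; rfl, ?_, h7⟩
      rw [h1, theta_inr, h6]
      simp

/-- `theta` without the first run -/
def TT (m : ℕ) (C : β) : List (β ⊕ ℕ) → List β
  | [] => []
  | Sum.inl D :: y => D :: theta m C y
  | Sum.inr n :: y => List.replicate n C ++ theta m C y

theorem TT_append {u : List (β ⊕ ℕ)} (hu : u ≠ []) (v : List (β ⊕ ℕ)) :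
    TT m C (u ++ v) = TT m C u ++ theta m C v := by
  cases u with
  | nil => exact absurd rfl hu
  | cons g u =>
    cases g with
    | inl D => simp [TT, theta_append]
    | inr n => simp [TT, theta_append]

theorem TT_concat (u : List (β ⊕ ℕ)) (D : β) :
    ∃ r, TT m C (u ++ [Sum.inl D]) = r ++ [D] := by
  cases u with
  | nil => exact ⟨[], by simp [TT, theta_nil]⟩
  | cons g u =>
    rw [TT_append (by simp), theta_inl, theta_nil]
    exact ⟨TT m C (g :: u) ++ List.replicate m C, by simp⟩

/-- begins and ends with a letter `inl` -/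
def Br (y : List (β ⊕ ℕ)) : Prop :=
  (∃ D y', y = Sum.inl D :: y') ∧ ∃ D y', y = y' ++ [Sum.inl D]

theorem Br.rev {y : List (β ⊕ ℕ)} (h : Br y) : Br y.reverse := by
  obtain ⟨⟨D, M, h1⟩, D', M', h3⟩ := h
  exact ⟨⟨D', M'.reverse, by rw [h3]; simp⟩, D, M.reverse, by rw [h1]; simp⟩

theorem Br.cases {y : List (β ⊕ ℕ)} (h : Br y) : (∃ D, y = [Sum.inl D]) ∨
    ∃ D τ D', y = Sum.inl D :: (τ ++ [Sum.inl D']) := by
  obtain ⟨⟨D, M, h1⟩, D', M', h3⟩ := h
  cases M' with
  | nil => left; exact ⟨D', by rw [h3]; rfl⟩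
  | cons a M' =>
    right
    refine ⟨D, M', D', ?_⟩
    rw [h3] at h1 ⊢
    rw [List.cons_append] at h1 ⊢
    rw [(List.cons_eq_cons.1 h1).1]

theorem theta_eq_TT {y : List (β ⊕ ℕ)} (h : Br y) :
    theta m C y = List.replicate m C ++ TT m C y := by
  obtain ⟨⟨D, M, h1⟩, _⟩ := h
  rw [h1, theta_inl]
  rfl

theorem theta_rev (y : List (β ⊕ ℕ)) :
    (theta m C y ++ List.replicate m C).reverse = theta m C y.reverse ++ List.replicate m C := by
  induction y with
  | nil => simp [theta_nil]
  | cons g y ih =>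
    cases g with
    | inl D =>
      rw [theta_inl, List.reverse_cons, theta_append, theta_inl, theta_nil, List.append_assoc,
        List.cons_append, List.reverse_append, List.reverse_cons, ih]
      simp
    | inr n =>
      rw [theta_inr, List.reverse_cons, theta_append, theta_inr, theta_nil, List.append_assoc,
        List.reverse_append, ih]
      simp only [List.reverse_replicate, List.append_nil, List.append_assoc]
      congr 1
      rw [← List.replicate_add, ← List.replicate_add, Nat.add_comm]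

theorem TT_rev {y : List (β ⊕ ℕ)} (h : Br y) : (TT m C y).reverse = TT m C y.reverse := by
  rcases h.cases with ⟨D, rfl⟩ | ⟨D, τ, D', rfl⟩
  · simp [TT, theta_nil]
  · have e : (Sum.inl D :: (τ ++ [Sum.inl D']) : List (β ⊕ ℕ)).reverse =
        Sum.inl D' :: (τ.reverse ++ [Sum.inl D]) := by simp
    rw [e]
    simp only [TT]
    rw [theta_append, theta_append, theta_inl, theta_inl, theta_nil]
    have h1 : D :: (theta m C τ ++ (List.replicate m C ++ [D'])) =
        D :: ((theta m C τ ++ List.replicate m C) ++ [D']) := by simp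
    rw [h1, List.reverse_cons, List.reverse_append, theta_rev]
    simp

theorem TT_BrW {Y : Set (List (β ⊕ ℕ))} (hY : YL Y C D0) {y : List (β ⊕ ℕ)} (h : Br y)
    (hy : y ∈ Y) : BrW C (TT m C y) := by
  have key : ∀ y : List (β ⊕ ℕ), Br y → y ∈ Y → ∃ D M, TT m C y = D :: M ∧ D ≠ C := by
    intro y h hy
    obtain ⟨⟨D, M, h1⟩, _⟩ := h
    refine ⟨D, theta m C M, by rw [h1]; rfl, ?_⟩
    exact hY.neC D (hY.fac [] _ M (by rw [h1] at hy; simpa using hy))
  refine ⟨key y h hy, ?_⟩
  obtain ⟨D, M, h1, h2⟩ := key y.reverse h.rev (hY.rev _ hy)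
  rw [← TT_rev h] at h1
  refine ⟨D, M.reverse, ?_, h2⟩
  have := congrArg List.reverse h1
  simpa using this

/-- length of the run next to a letter -/
def run (m : ℕ) : β ⊕ ℕ → ℕ
  | Sum.inl _ => m
  | Sum.inr n => n + m

/-- the letter at the other end of this run -/
def nxt (D0 : β) : β ⊕ ℕ → β
  | Sum.inl D => D
  | Sum.inr _ => D0

theorem YL.fac' {Y : Set (List (β ⊕ ℕ))} (hY : YL Y C D0) {w z : List (β ⊕ ℕ)} (hz : z ∈ Y)
    (hw : w <:+: z) : w ∈ Y := by
  obtain ⟨x, y, rfl⟩ := hw
  exact hY.fac x w y hz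

theorem nxt_ne {Y : Set (List (β ⊕ ℕ))} (hY : YL Y C D0) {g : β ⊕ ℕ} {y : List (β ⊕ ℕ)}
    (hy : y ∈ Y) (hg : g ∈ y) : nxt D0 g ≠ C := by
  cases g with
  | inl D =>
    obtain ⟨a, b, rfl⟩ := List.append_of_mem hg
    exact hY.neC D (hY.fac' hy ⟨a, b, by simp⟩)
  | inr n => exact hY.d0

theorem RC {Y : Set (List (β ⊕ ℕ))} (hY : YL Y C D0) {g : β ⊕ ℕ} {u : List (β ⊕ ℕ)}
    (hy : g :: u ∈ Y) (hend : ∃ D v, g :: u = v ++ [Sum.inl D]) :
    ∃ rest, theta m C (g :: u) = List.replicate (run m g) C ++ nxt D0 g :: rest := by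
  cases g with
  | inl D => exact ⟨theta m C u, theta_inl m C D u⟩
  | inr n =>
    cases u with
    | nil =>
      exfalso
      obtain ⟨D, v, h⟩ := hend
      cases v with
      | nil => simp at h
      | cons a v => simp at h
    | cons g2 u =>
      have h1 : [Sum.inr n, g2] ∈ Y := hY.fac' hy ⟨[], u, by simp⟩
      rcases hY.pair _ _ h1 with h2 | h2
      · simp at h2
      · subst h2
        refine ⟨theta m C u, ?_⟩
        rw [theta_inr, theta_inl]
        change _ = List.replicate (n + m) C ++ D0 :: theta m C u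
        rw [List.replicate_add, List.append_assoc]

theorem LC {Y : Set (List (β ⊕ ℕ))} (hY : YL Y C D0) {g : β ⊕ ℕ} {u : List (β ⊕ ℕ)}
    (hy : u ++ [g] ∈ Y) (hbeg : ∃ D v, u ++ [g] = Sum.inl D :: v) :
    ∃ rest, TT m C (u ++ [g]) ++ List.replicate m C =
      rest ++ nxt D0 g :: List.replicate (run m g) C := by
  cases g with
  | inl D =>
    obtain ⟨r, hr⟩ := TT_concat (m := m) (C := C) u D
    exact ⟨r, by rw [hr]; simp [run, nxt]⟩
  | inr n =>
    rcases List.eq_nil_or_concat u with h | ⟨u2, g2, h⟩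
    · exfalso
      subst h
      obtain ⟨D, v, h⟩ := hbeg
      simp at h
    · rw [List.concat_eq_append] at h
      subst h
      have h1 : [g2, Sum.inr n] ∈ Y := hY.fac' hy ⟨u2, [], by simp⟩
      rcases hY.pair _ _ h1 with h2 | h2
      · subst h2
        obtain ⟨r, hr⟩ := TT_concat (m := m) (C := C) u2 D0
        refine ⟨r, ?_⟩
        rw [TT_append (by simp), hr, theta_inr, theta_nil]
        change _ = r ++ D0 :: List.replicate (n + m) C
        rw [List.replicate_add]
        simp only [List.append_assoc, List.append_nil, List.cons_append, List.nil_append]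
      · simp at h2

theorem theta_inj {Y : Set (List (β ⊕ ℕ))} (hY : YL Y C D0) :
    ∀ (u u' : List (β ⊕ ℕ)), u ∈ Y → u' ∈ Y → (u = [] ∨ ∃ D v, u = v ++ [Sum.inl D]) →
      (u' = [] ∨ ∃ D v, u' = v ++ [Sum.inl D]) → theta m C u = theta m C u' → u = u' := by
  have pos : ∀ u : List (β ⊕ ℕ), u ∈ Y → u ≠ [] → theta m C u ≠ [] := by
    intro u hu hne
    cases u with
    | nil => exact absurd rfl hne
    | cons g u =>
      cases g with
      | inl D => rw [theta_inl]; simp
      | inr n =>
        have := hY.pos n (hY.fac' hu ⟨[], u, by simp⟩)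
        rw [theta_inr]
        intro h
        have h2 := congrArg List.length h
        simp at h2
        omega
  have tail_end : ∀ (g : β ⊕ ℕ) (u : List (β ⊕ ℕ)), (g :: u = [] ∨ ∃ D v, g :: u = v ++ [Sum.inl D]) →
      (u = [] ∨ ∃ D v, u = v ++ [Sum.inl D]) := by
    intro g u h
    rcases h with h | ⟨D, v, h⟩
    · simp at h
    · cases v with
      | nil => left; simpa using (List.cons_eq_cons.1 h).2
      | cons a v => right; exact ⟨D, v, (List.cons_eq_cons.1 h).2⟩
  intro u
  induction u with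
  | nil =>
    intro u' _ hu' _ _ h
    by_contra hne
    exact pos u' hu' (fun h2 => hne h2.symm) (by rw [← h, theta_nil])
  | cons g u ih =>
    intro u' hu hu' he he' h
    cases u' with
    | nil =>
      exfalso
      exact pos _ hu (by simp) (by rw [h, theta_nil])
    | cons g' u' =>
      have he2 : ∃ D v, g :: u = v ++ [Sum.inl D] := by
        rcases he with h1 | h1
        · simp at h1
        · exact h1
      have he2' : ∃ D v, g' :: u' = v ++ [Sum.inl D] := by
        rcases he' with h1 | h1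
        · simp at h1
        · exact h1
      obtain ⟨r, hr⟩ := RC (m := m) hY hu he2
      obtain ⟨r', hr'⟩ := RC (m := m) hY hu' he2'
      have h1 : List.replicate (run m g) C ++ nxt D0 g :: r =
          List.replicate (run m g') C ++ nxt D0 g' :: r' := by rw [← hr, ← hr', h]
      obtain ⟨h2, h3, h4⟩ := lead (nxt_ne hY hu (by simp)) (nxt_ne hY hu' (by simp)) h1
      have hgg : g = g' := by
        cases g with
        | inl D =>
          cases g' with
          | inl D' => simp only [nxt] at h3; rw [h3]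
          | inr n' =>
            exfalso
            have := hY.pos n' (hY.fac' hu' ⟨[], u', by simp⟩)
            simp only [run] at h2
            omega
        | inr n =>
          cases g' with
          | inl D' =>
            exfalso
            have := hY.pos n (hY.fac' hu ⟨[], u, by simp⟩)
            simp only [run] at h2
            omega
          | inr n' =>
            simp only [run] at h2
            have : n = n' := by omega
            rw [this]
      subst hgg
      congr 1
      apply ih u' (hY.fac' hu ⟨[g], [], by simp⟩) (hY.fac' hu' ⟨[g], [], by simp⟩)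
        (tail_end _ _ he) (tail_end _ _ he')
      cases g with
      | inl D =>
        rw [theta_inl, theta_inl] at h
        have := List.append_cancel_left h
        exact (List.cons_eq_cons.1 this).2
      | inr n =>
        rw [theta_inr, theta_inr] at h
        exact List.append_cancel_left h

theorem TT_inj {Y : Set (List (β ⊕ ℕ))} (hY : YL Y C D0) {u u' : List (β ⊕ ℕ)}
    (hu : u ∈ Y) (hu' : u' ∈ Y) (hb : Br u) (hb' : Br u') (h : TT m C u = TT m C u') : u = u' := by
  apply theta_inj hY u u' hu hu' (Or.inr hb.2) (Or.inr hb'.2)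
  rw [theta_eq_TT hb, theta_eq_TT hb', h]

end partC

section partD

variable {β : Type*} {m : ℕ} {C D0 : β} {Y : Set (List (β ⊕ ℕ))}

/-- flank condition -/
def Fl (m : ℕ) (C D0 : β) (p : ℕ) (f : β) (g : β ⊕ ℕ) : Prop :=
  (p < run m g ∧ f = C) ∨ (p = run m g ∧ f = nxt D0 g)

/-- decoding of a factor `f C^p W C^p' f'` -/
theorem dec (hY : YL Y C D0) {yh : List (β ⊕ ℕ)} (hyh : yh ∈ Y) (hbr : Br yh)
    {Z1 Z2 W : List β} {f f' : β} {p p' : ℕ} (hW : BrW C W)
    (h : TT m C yh = Z1 ++ f :: List.replicate p C ++ W ++ (List.replicate p' C ++ f' :: Z2)) :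
    ∃ y1 g ω g' y2, yh = y1 ++ g :: (ω ++ g' :: y2) ∧ Br ω ∧ TT m C ω = W ∧
      Fl m C D0 p f g ∧ Fl m C D0 p' f' g' := by
  obtain ⟨⟨E, yh', hE⟩, D2, v2, hend⟩ := hbr
  subst hE
  obtain ⟨⟨D, M, hD1, hD2⟩, D', M', hD3, hD4⟩ := hW
  -- first letter of W
  have h1 : E :: theta m C yh' = (Z1 ++ f :: List.replicate p C) ++
      D :: (M ++ (List.replicate p' C ++ f' :: Z2)) := by
    change TT m C (Sum.inl E :: yh') = _
    rw [h, hD1]
    simp
  have h2 : ∃ X2, Z1 ++ f :: List.replicate p C = E :: X2 ∧ theta m C yh' =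
      X2 ++ D :: (M ++ (List.replicate p' C ++ f' :: Z2)) := by
    cases Z1 with
    | nil =>
      simp only [List.nil_append, List.cons_append, List.cons.injEq] at h1
      exact ⟨List.replicate p C, by rw [h1.1, List.nil_append], h1.2⟩
    | cons a Z1 =>
      simp only [List.cons_append, List.cons.injEq] at h1
      exact ⟨Z1 ++ f :: List.replicate p C, by rw [h1.1]; rfl, by rw [h1.2]⟩
  obtain ⟨X2, h3, h4⟩ := h2
  obtain ⟨y1, y2, h5, h6, h7⟩ := theta_split hD2 _ _ _ h4
  -- the left flank
  obtain ⟨y0, g, hy0⟩ : ∃ y0 g, Sum.inl E :: y1 = y0 ++ [g] := by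
    rcases List.eq_nil_or_concat (Sum.inl E :: y1) with h8 | ⟨a, b, h8⟩
    · simp at h8
    · exact ⟨a, b, by rw [h8, List.concat_eq_append]⟩
  have hyh2 : (Sum.inl E :: yh' : List (β ⊕ ℕ)) = y0 ++ g :: (Sum.inl D :: y2) := by
    rw [h5, ← List.cons_append, hy0]; simp
  have hLCmem : y0 ++ [g] ∈ Y := hY.fac' hyh ⟨[], Sum.inl D :: y2, by rw [hyh2]; simp⟩
  obtain ⟨rest, hrest⟩ := LC (m := m) hY hLCmem ⟨E, y1, hy0.symm⟩
  have hTT : TT m C (y0 ++ [g]) ++ List.replicate m C = Z1 ++ f :: List.replicate p C := by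
    rw [← hy0, h3, h6]
    simp [TT]
  have hFl1 : Fl m C D0 p f g := by
    rw [hTT] at hrest
    rcases cmpL (nxt_ne hY hLCmem (by simp)) _ _ _ _ _ hrest.symm with h8 | h8
    · exact Or.inl h8
    · exact Or.inr ⟨h8.1, h8.2.1⟩
  -- common treatment of the right flank
  have right : ∀ (y3 : List (β ⊕ ℕ)), (∃ w, (Sum.inl E :: yh' : List (β ⊕ ℕ)) = w ++ y3) →
      List.replicate p' C ++ f' :: Z2 = theta m C y3 →
      ∃ g' y4, y3 = g' :: y4 ∧ Fl m C D0 p' f' g' := by
    intro y3 ⟨w, hw⟩ h8
    cases y3 with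
    | nil => rw [theta_nil] at h8; simp at h8
    | cons g' y4 =>
      refine ⟨g', y4, rfl, ?_⟩
      have hmem : g' :: y4 ∈ Y := hY.fac' hyh ⟨w, [], by rw [hw]; simp⟩
      have hend' : ∃ D v, g' :: y4 = v ++ [Sum.inl D] := by
        rw [hw] at hend
        rcases List.eq_nil_or_concat (g' :: y4) with h9 | ⟨a, b, h9⟩
        · simp at h9
        · rw [List.concat_eq_append] at h9
          rw [h9, ← List.append_assoc] at hend
          have := List.append_inj_right' hend rfl
          refine ⟨D2, a, ?_⟩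
          rw [h9, this]
      obtain ⟨rest', hrest'⟩ := RC (m := m) hY hmem hend'
      rw [← h8] at hrest'
      rcases cmpR (nxt_ne hY hmem (by simp)) _ _ _ _ _ hrest'.symm with h9 | h9
      · exact Or.inl h9
      · exact Or.inr ⟨h9.1, h9.2.1⟩
  cases M' with
  | nil =>
    rw [List.nil_append] at hD3
    have hM : M = [] := by
      rw [hD1] at hD3
      exact (List.cons_eq_cons.1 hD3).2
    subst hM
    rw [List.nil_append] at h7
    obtain ⟨g', y4, h8, h9⟩ := right y2 ⟨y0 ++ [g, Sum.inl D], by rw [hyh2]; simp⟩ h7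
    refine ⟨y0, g, [Sum.inl D], g', y4, ?_, ⟨⟨D, [], rfl⟩, D, [], rfl⟩, ?_, hFl1, h9⟩
    · rw [hyh2, h8]; rfl
    · rw [hD1]; rfl
  | cons a M' =>
    have hM : M = M' ++ [D'] := by
      rw [hD1] at hD3
      exact (List.cons_eq_cons.1 hD3).2
    rw [hM] at h7
    have h8 : theta m C y2 = M' ++ D' :: (List.replicate p' C ++ f' :: Z2) := by
      rw [← h7]; simp
    obtain ⟨τ, y3, h9, h10, h11⟩ := theta_split hD4 _ _ _ h8
    obtain ⟨g', y4, h12, h13⟩ := right y3 ⟨y0 ++ g :: Sum.inl D :: (τ ++ [Sum.inl D']), by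
      rw [hyh2, h9]; simp⟩ h11
    refine ⟨y0, g, Sum.inl D :: (τ ++ [Sum.inl D']), g', y4, ?_,
      ⟨⟨D, _, rfl⟩, D', Sum.inl D :: τ, rfl⟩, ?_, hFl1, h13⟩
    · rw [hyh2, h9, h12]; simp
    · change D :: theta m C (τ ++ [Sum.inl D']) = W
      rw [theta_append, theta_inl, theta_nil, hD1, hM, h10]
      simp

/-- decoding of a prefix -/
theorem dec2 {ω : List (β ⊕ ℕ)} (hbr : Br ω) {Q A : List β}
    (hQ : BrW C Q) (h : TT m C ω = Q ++ A) :
    ∃ q ω'', ω = q ++ ω'' ∧ Br q ∧ TT m C q = Q ∧ A = theta m C ω'' := by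
  obtain ⟨⟨E, ω', hE⟩, _⟩ := hbr
  subst hE
  obtain ⟨⟨D, M, hD1, hD2⟩, D', M', hD3, hD4⟩ := hQ
  have h1 : E :: theta m C ω' = D :: (M ++ A) := by
    change TT m C (Sum.inl E :: ω') = _
    rw [h, hD1]; rfl
  obtain ⟨h2, h3⟩ := List.cons_eq_cons.1 h1
  subst h2
  cases M' with
  | nil =>
    have hM : M = [] := by
      rw [hD1] at hD3
      exact (List.cons_eq_cons.1 hD3).2
    subst hM
    rw [List.nil_append] at h3
    exact ⟨[Sum.inl E], ω', rfl, ⟨⟨E, [], rfl⟩, E, [], rfl⟩, by rw [hD1]; rfl, h3.symm⟩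
  | cons a M' =>
    have hM : M = M' ++ [D'] := by
      rw [hD1] at hD3
      exact (List.cons_eq_cons.1 hD3).2
    have h4 : theta m C ω' = M' ++ D' :: A := by rw [h3, hM]; simp
    obtain ⟨τ, y3, h9, h10, h11⟩ := theta_split hD4 _ _ _ h4
    refine ⟨Sum.inl E :: (τ ++ [Sum.inl D']), y3, by rw [h9]; simp,
      ⟨⟨E, _, rfl⟩, D', Sum.inl E :: τ, rfl⟩, ?_, h11⟩
    change E :: theta m C (τ ++ [Sum.inl D']) = Q
    rw [theta_append, theta_inl, theta_nil, hD1, hM, h10]
    simp

/-- the letters of the decoded word which give a flank in `F` -/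
def GG (m : ℕ) (C D0 : β) (i : ℕ) (F : Set β) : Set (β ⊕ ℕ) :=
  {g | (i < run m g ∧ C ∈ F) ∨ (i = run m g ∧ nxt D0 g ∈ F)}

theorem Fl.mem {p : ℕ} {f : β} {g : β ⊕ ℕ} {F : Set β} (h : Fl m C D0 p f g) (hf : f ∈ F) :
    g ∈ GG m C D0 p F := by
  rcases h with ⟨h1, h2⟩ | ⟨h1, h2⟩
  · left; exact ⟨h1, h2 ▸ hf⟩
  · right; exact ⟨h1, h2 ▸ hf⟩

theorem lift (hY : YL Y C D0) {ω u1 q u2 : List (β ⊕ ℕ)} {g3 g4 : β ⊕ ℕ} {i : ℕ} {F : Set β}
    (hω : ω ∈ Y) (hbr : Br ω) (hq : Br q) (h : ω = u1 ++ g3 :: (q ++ g4 :: u2))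
    (h3 : g3 ∈ GG m C D0 i F) (h4 : g4 ∈ GG m C D0 i F) :
    ∃ w1 f3 f4 w2, f3 ∈ F ∧ f4 ∈ F ∧
      TT m C ω = w1 ++ f3 :: ((List.replicate i C ++ TT m C q ++ List.replicate i C) ++ f4 :: w2) := by
  have hmem1 : u1 ++ [g3] ∈ Y := hY.fac' hω ⟨[], q ++ g4 :: u2, by rw [h]; simp⟩
  have hmem2 : g4 :: u2 ∈ Y := hY.fac' hω ⟨u1 ++ g3 :: q, [], by rw [h]; simp⟩
  have hbeg : ∃ D v, u1 ++ [g3] = Sum.inl D :: v := by
    obtain ⟨⟨D, v, hv⟩, _⟩ := hbr
    rw [h] at hv
    cases u1 with
    | nil => exact ⟨D, [], by rw [List.nil_append] at hv ⊢; rw [(List.cons_eq_cons.1 hv).1]⟩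
    | cons a u1 =>
      rw [List.cons_append] at hv
      exact ⟨D, u1 ++ [g3], by rw [List.cons_append, (List.cons_eq_cons.1 hv).1]⟩
  have hend : ∃ D v, g4 :: u2 = v ++ [Sum.inl D] := by
    obtain ⟨_, D, v, hv⟩ := hbr
    rcases List.eq_nil_or_concat (g4 :: u2) with h9 | ⟨a, b, h9⟩
    · simp at h9
    · rw [List.concat_eq_append] at h9
      rw [h, h9] at hv
      have e : u1 ++ g3 :: (q ++ (a ++ [b])) = (u1 ++ g3 :: (q ++ a)) ++ [b] := by simp
      rw [e] at hv
      have := List.append_inj_right' hv rfl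
      exact ⟨D, a, by rw [h9, this]⟩
  obtain ⟨rest1, hr1⟩ := LC (m := m) hY hmem1 hbeg
  obtain ⟨rest2, hr2⟩ := RC (m := m) hY hmem2 hend
  obtain ⟨f3, B3, hf3, hB3⟩ := extL (h := nxt D0 g3) h3 rest1
  obtain ⟨f4, B4, hf4, hB4⟩ := extR (h := nxt D0 g4) h4 rest2
  refine ⟨B3, f3, f4, B4, hf3, hf4, ?_⟩
  have e1 : TT m C ω = TT m C (u1 ++ [g3]) ++ List.replicate m C ++ TT m C q ++
      theta m C (g4 :: u2) := by
    have : ω = (u1 ++ [g3]) ++ (q ++ g4 :: u2) := by rw [h]; simp
    rw [this, TT_append (by simp), theta_append, theta_eq_TT hq]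
    simp
  rw [e1, hr1, hB3, hr2, hB4]
  simp

/-- condition for a run `C^r` between `h` and `h'` to contain a flanked `C^k` -/
def good (C : β) (k : ℕ) (F : Set β) (h : β) (r : ℕ) (h' : β) : Prop :=
  (C ∈ F ∧ k + 2 ≤ r) ∨ (C ∈ F ∧ r = k + 1 ∧ (h ∈ F ∨ h' ∈ F)) ∨ (r = k ∧ h ∈ F ∧ h' ∈ F)

theorem good_ext {k r : ℕ} {F : Set β} {h h' : β} (hg : good C k F h r h') (A B : List β) :
    ∃ w1 f3 f4 w2, f3 ∈ F ∧ f4 ∈ F ∧ A ++ h :: (List.replicate r C ++ h' :: B) =
      w1 ++ f3 :: (List.replicate k C ++ f4 :: w2) := by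
  rcases hg with ⟨h1, h2⟩ | ⟨h1, h2, h3 | h3⟩ | ⟨h1, h2, h3⟩
  · refine ⟨A ++ [h], C, C, List.replicate (r - k - 2) C ++ h' :: B, h1, h1, ?_⟩
    have : List.replicate r C =
        C :: (List.replicate k C ++ C :: List.replicate (r - k - 2) C) := by
      rw [← List.replicate_succ, ← List.replicate_add, ← List.replicate_succ]
      congr 1
      omega
    rw [this]
    simp
  · refine ⟨A, h, C, h' :: B, h3, h1, ?_⟩
    have : List.replicate r C = List.replicate k C ++ [C] := by
      rw [h2, List.replicate_succ']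
    rw [this]
    simp
  · refine ⟨A ++ [h], C, h', B, h1, h3, ?_⟩
    rw [h2, List.replicate_succ]
    simp
  · exact ⟨A, h, h', B, h2, h3, by rw [h1]⟩

/-- `ω` contains a good run -/
def HasGood (m : ℕ) (C : β) (k : ℕ) (F : Set β) (ω : List (β ⊕ ℕ)) : Prop :=
  ∃ u1 h mid h' u2 r, ω = u1 ++ Sum.inl h :: (mid ++ Sum.inl h' :: u2) ∧
    ((mid = [] ∧ r = m) ∨ ∃ n, mid = [Sum.inr n] ∧ r = n + m) ∧ good C k F h r h'

theorem lift2 {k : ℕ} {F : Set β} {ω : List (β ⊕ ℕ)} (hg : HasGood m C k F ω) :
    ∃ w1 f3 f4 w2, f3 ∈ F ∧ f4 ∈ F ∧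
      TT m C ω = w1 ++ f3 :: (List.replicate k C ++ f4 :: w2) := by
  obtain ⟨u1, h, mid, h', u2, r, h1, h2, h3⟩ := hg
  obtain ⟨rr, hrr⟩ := TT_concat (m := m) (C := C) u1 h
  have e1 : TT m C ω = rr ++ h :: (List.replicate r C ++ h' :: theta m C u2) := by
    have : ω = (u1 ++ [Sum.inl h]) ++ (mid ++ Sum.inl h' :: u2) := by rw [h1]; simp
    rw [this, TT_append (by simp), hrr, theta_append, theta_inl]
    rcases h2 with ⟨h4, h5⟩ | ⟨n, h4, h5⟩
    · rw [h4, h5, theta_nil]; simp
    · rw [h4, h5, theta_inr, theta_nil, List.replicate_add]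
      simp only [List.append_assoc, List.cons_append, List.nil_append]
  rw [e1]
  exact good_ext h3 rr (theta m C u2)

end partD

section partE

variable {β : Type*} {m : ℕ} {C D0 : β} {Y : Set (List (β ⊕ ℕ))}

theorem good_symm {k r : ℕ} {F : Set β} {h h' : β} (hg : good C k F h r h') :
    good C k F h' r h := by
  rcases hg with ⟨h1, h2⟩ | ⟨h1, h2, h3 | h3⟩ | ⟨h1, h2, h3⟩
  · exact Or.inl ⟨h1, h2⟩
  · exact Or.inr (Or.inl ⟨h1, h2, Or.inr h3⟩)
  · exact Or.inr (Or.inl ⟨h1, h2, Or.inl h3⟩)
  · exact Or.inr (Or.inr ⟨h1, h3, h2⟩)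

theorem mid_decomp {γ : Type*} {g g' a b : γ} {ω u u' P : List γ}
    (h : g :: (ω ++ [g']) = u ++ a :: (P ++ b :: u')) (hu : u ≠ []) (hu' : u' ≠ []) :
    ∃ u1 u2, ω = u1 ++ a :: (P ++ b :: u2) := by
  cases u with
  | nil => exact absurd rfl hu
  | cons c u =>
    rw [List.cons_append] at h
    have h1 := (List.cons_eq_cons.1 h).2
    rcases List.eq_nil_or_concat u' with h2 | ⟨v, d, h2⟩
    · exact absurd h2 hu'
    · rw [List.concat_eq_append] at h2
      subst h2
      have e : u ++ a :: (P ++ b :: (v ++ [d])) = (u ++ a :: (P ++ b :: v)) ++ [d] := by simp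
      rw [e] at h1
      exact ⟨u, v, List.append_inj_left' h1 rfl⟩

theorem lemmaM (hY : YL Y C D0) {N k : ℕ} {F : Set β} (hA : PA Y N) (hB : PB Y N)
    {ω : List (β ⊕ ℕ)} {g g' : β ⊕ ℕ} (hmem : g :: (ω ++ [g']) ∈ Y)
    (hlen : ω.length + 2 ≤ N) {D D' : β} {v v' : List (β ⊕ ℕ)} (hD : ω = Sum.inl D :: v)
    (hD' : ω = v' ++ [Sum.inl D']) (hg : good C k F (nxt D0 g) (run m g) D)
    (hg' : good C k F D' (run m g') (nxt D0 g')) (hnp : ω.reverse ≠ ω) :
    HasGood m C k F ω := by
  by_contra NG
  have hωY : ω ∈ Y := hY.fac' hmem ⟨[g], [g'], by simp⟩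
  have F1 : ∀ n, Sum.inr n ∈ ω → ¬ good C k F D0 (n + m) D0 := by
    intro n hn hgood
    obtain ⟨a, b, hab⟩ := List.append_of_mem hn
    rcases List.eq_nil_or_concat a with h1 | ⟨a', x, h1⟩
    · rw [h1, List.nil_append, hD] at hab
      simp at hab
    · rw [List.concat_eq_append] at h1
      cases b with
      | nil =>
        rw [hD'] at hab
        have := List.append_inj_right' hab rfl
        simp at this
      | cons y b =>
        have h2 : [x, Sum.inr n] ∈ Y := hY.fac' hωY ⟨a', y :: b, by rw [hab, h1]; simp⟩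
        have h3 : [Sum.inr n, y] ∈ Y := hY.fac' hωY ⟨a, b, by rw [hab]; simp⟩
        have hx : x = Sum.inl D0 := by
          rcases hY.pair _ _ h2 with h4 | h4
          · exact h4
          · simp at h4
        have hy : y = Sum.inl D0 := by
          rcases hY.pair _ _ h3 with h4 | h4
          · simp at h4
          · exact h4
        apply NG
        refine ⟨a', D0, [Sum.inr n], D0, b, n + m, ?_, Or.inr ⟨n, rfl, rfl⟩, hgood⟩
        rw [hab, h1, hx, hy]
        simp
  have F2 : ∀ a h h' b, ω = a ++ Sum.inl h :: Sum.inl h' :: b → ¬ good C k F h m h' := by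
    intro a h h' b hab hgood
    exact NG ⟨a, h, [], h', b, m, by rw [hab]; rfl, Or.inl ⟨rfl, rfl⟩, hgood⟩
  have hinrD : ∀ n, g = Sum.inr n → D = D0 := by
    intro n hn
    have h1 : [Sum.inr n, Sum.inl D] ∈ Y := hY.fac' hmem ⟨[], v ++ [g'], by rw [hD, hn]; simp⟩
    rcases hY.pair _ _ h1 with h4 | h4
    · simp at h4
    · simpa using h4
  have hinrD' : ∀ n, g' = Sum.inr n → D' = D0 := by
    intro n hn
    have h1 : [Sum.inl D', Sum.inr n] ∈ Y := hY.fac' hmem ⟨g :: v', [], by rw [hD', hn]; simp⟩
    rcases hY.pair _ _ h1 with h4 | h4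
    · simpa using h4
    · simp at h4
  have hpos : ∀ n, Sum.inr n ∈ g :: (ω ++ [g']) → 1 ≤ n := by
    intro n hn
    obtain ⟨a, b, hab⟩ := List.append_of_mem hn
    exact hY.pos n (hY.fac' hmem ⟨a, b, by rw [hab]; simp⟩)
  have hposω : ∀ n, Sum.inr n ∈ ω → 1 ≤ n := fun n hn => hpos n (by simp [hn])
  by_cases hboth : (∃ n, g = Sum.inr n) ∧ ∃ n, g' = Sum.inr n
  · obtain ⟨⟨n, hn⟩, n', hn'⟩ := hboth
    apply hnp
    apply hA {x | ∃ n, x = Sum.inr n ∧ good C k F D0 (n + m) D0} g g' ω ?_ ?_ hmem hlen
    · rintro x hx ⟨n2, hx2, hx3⟩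
      exact F1 n2 (hx2 ▸ hx) hx3
    · refine ⟨n, hn, ?_⟩
      rw [hn, hinrD n hn] at hg
      exact hg
    · refine ⟨n', hn', ?_⟩
      rw [hn', hinrD' n' hn'] at hg'
      exact hg'
  · have hthree : (C ∈ F ∧ k + 2 ≤ m) ∨ (C ∈ F ∧ m = k + 1) ∨ (m = k ∧ D0 ∈ F) := by
      cases g with
      | inl h =>
        simp only [nxt, run] at hg
        rcases hg with h1 | ⟨h1, h2, _⟩ | ⟨h1, h2, h3⟩
        · exact Or.inl h1
        · exact Or.inr (Or.inl ⟨h1, h2⟩)
        · right; right
          refine ⟨h1, ?_⟩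
          have h4 : [Sum.inl h, Sum.inl D] ∈ Y :=
            hY.fac' hmem ⟨[], v ++ [g'], by rw [hD]; simp⟩
          rcases hY.pair _ _ h4 with h5 | h5
          · simp at h5; rw [← h5]; exact h2
          · simp at h5; rw [← h5]; exact h3
      | inr n =>
        cases g' with
        | inl h =>
          simp only [nxt, run] at hg'
          rcases hg' with h1 | ⟨h1, h2, _⟩ | ⟨h1, h2, h3⟩
          · exact Or.inl h1
          · exact Or.inr (Or.inl ⟨h1, h2⟩)
          · right; right
            refine ⟨h1, ?_⟩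
            have h4 : [Sum.inl D', Sum.inl h] ∈ Y :=
              hY.fac' hmem ⟨Sum.inr n :: v', [], by rw [hD']; simp⟩
            rcases hY.pair _ _ h4 with h5 | h5
            · simp at h5; rw [← h5]; exact h2
            · simp at h5; rw [← h5]; exact h3
        | inr n' => exact absurd ⟨⟨n, rfl⟩, n', rfl⟩ hboth
    have hlen2 : v ≠ [] := by
      rintro rfl
      apply hnp
      rw [hD]; rfl
    rcases hthree with ⟨hC, hkm⟩ | ⟨hC, hkm⟩ | ⟨hkm, hD0⟩
    · -- all runs are good
      cases v with
      | nil => exact hlen2 rfl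
      | cons x v =>
        cases x with
        | inl h' => exact F2 [] D h' v (by rw [hD]; rfl) (Or.inl ⟨hC, hkm⟩)
        | inr n => exact F1 n (by rw [hD]; simp) (Or.inl ⟨hC, by omega⟩)
    · -- m = k + 1
      have noinr : ∀ n, Sum.inr n ∉ ω := by
        intro n hn
        have := hposω n hn
        exact F1 n hn (Or.inl ⟨hC, by omega⟩)
      have noinl : ∀ h, Sum.inl h ∈ ω → h ∉ F := by
        intro h hh hF
        obtain ⟨a, b, hab⟩ := List.append_of_mem hh
        cases b with
        | cons y b =>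
          cases y with
          | inl h' => exact F2 a h h' b hab (Or.inr (Or.inl ⟨hC, hkm, Or.inl hF⟩))
          | inr n => exact noinr n (by rw [hab]; simp)
        | nil =>
          rcases List.eq_nil_or_concat a with h1 | ⟨a', x, h1⟩
          · rw [h1, List.nil_append, hD] at hab
            exact hlen2 (List.cons_eq_cons.1 hab).2
          · rw [List.concat_eq_append] at h1
            cases x with
            | inl h' =>
              exact F2 a' h' h [] (by rw [hab, h1]; simp)
                (Or.inr (Or.inl ⟨hC, hkm, Or.inr hF⟩))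
            | inr n => exact noinr n (by rw [hab, h1]; simp)
      apply hnp
      apply hA {x | (∃ h ∈ F, x = Sum.inl h) ∨ ∃ n, x = Sum.inr n} g g' ω ?_ ?_ hmem hlen
      · rintro x hx (⟨h, hF, rfl⟩ | ⟨n, rfl⟩)
        · exact noinl h hx hF
        · exact noinr n hx
      · cases g with
        | inr n => exact Or.inr ⟨n, rfl⟩
        | inl h =>
          left
          simp only [nxt, run] at hg
          rcases hg with ⟨_, h2⟩ | ⟨_, _, h3 | h3⟩ | ⟨h1, _⟩
          · omega
          · exact ⟨h, h3, rfl⟩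
          · exact absurd h3 (noinl D (by rw [hD]; simp))
          · omega
      · cases g' with
        | inr n => exact Or.inr ⟨n, rfl⟩
        | inl h =>
          left
          simp only [nxt, run] at hg'
          rcases hg' with ⟨_, h2⟩ | ⟨_, _, h3 | h3⟩ | ⟨h1, _⟩
          · omega
          · exact absurd h3 (noinl D' (by rw [hD']; simp))
          · exact ⟨h, h3, rfl⟩
          · omega
    · -- m = k, D0 ∈ F
      apply hnp
      have hinrC : ∀ n r, 1 ≤ n → good C k F D0 (n + m) r → C ∈ F := by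
        intro n r hn hgd
        rcases hgd with ⟨h1, _⟩ | ⟨h1, _⟩ | ⟨h1, _⟩
        · exact h1
        · exact h1
        · omega
      have hgG : (g ∈ {x : β ⊕ ℕ | (∃ h ∈ F, x = Sum.inl h) ∨ (C ∈ F ∧ ∃ n, x = Sum.inr n)}) ∧
          D ∈ F := by
        cases g with
        | inl h =>
          simp only [nxt, run] at hg
          rcases hg with ⟨_, h2⟩ | ⟨_, h2, _⟩ | ⟨_, h2, h3⟩
          · omega
          · omega
          · exact ⟨Or.inl ⟨h, h2, rfl⟩, h3⟩
        | inr n =>
          have h1 := hpos n (by simp)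
          rw [hinrD n rfl] at hg ⊢
          exact ⟨Or.inr ⟨hinrC n _ h1 hg, n, rfl⟩, hD0⟩
      have hgG' : (g' ∈ {x : β ⊕ ℕ | (∃ h ∈ F, x = Sum.inl h) ∨ (C ∈ F ∧ ∃ n, x = Sum.inr n)}) ∧
          D' ∈ F := by
        cases g' with
        | inl h =>
          simp only [nxt, run] at hg'
          rcases hg' with ⟨_, h2⟩ | ⟨_, h2, _⟩ | ⟨_, h2, h3⟩
          · omega
          · omega
          · exact ⟨Or.inl ⟨h, h3, rfl⟩, h2⟩
        | inr n =>
          have h1 := hpos n (by simp)
          rw [hinrD' n rfl] at hg' ⊢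
          exact ⟨Or.inr ⟨hinrC n _ h1 hg', n, rfl⟩, hD0⟩
      refine hB {x | (∃ h ∈ F, x = Sum.inl h) ∨ (C ∈ F ∧ ∃ n, x = Sum.inr n)} [] g g' ω rfl
        hgG.1 hgG'.1 hmem hlen ⟨Sum.inl D, v, Or.inl ⟨D, hgG.2, rfl⟩, hD⟩
        ⟨Sum.inl D', v', Or.inl ⟨D', hgG'.2, rfl⟩, hD'⟩ ?_
      intro u a b u' ha hb hdec
      by_contra hne
      push Not at hne
      obtain ⟨u1, u2, hu12⟩ := mid_decomp hdec hne.1 hne.2
      rw [List.nil_append] at hu12
      have noinr : C ∈ F → ∀ n, Sum.inr n ∉ ω := by
        intro hC n hn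
        have h1 := hposω n hn
        apply F1 n hn
        by_cases h2 : n = 1
        · exact Or.inr (Or.inl ⟨hC, by omega, Or.inl hD0⟩)
        · exact Or.inl ⟨hC, by omega⟩
      rcases ha with ⟨h, hF, rfl⟩ | ⟨hC, n, rfl⟩
      · rcases hb with ⟨h', hF', rfl⟩ | ⟨hC, n, rfl⟩
        · exact F2 u1 h h' u2 hu12 (Or.inr (Or.inr ⟨hkm, hF, hF'⟩))
        · exact noinr hC n (by rw [hu12]; simp)
      · exact noinr hC n (by rw [hu12]; simp)

theorem edge {F : Set β} {f f' D : β} {R M : List β} {k p : ℕ} (hD : D ≠ C)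
    (hR : R = List.replicate p C ++ D :: M) (hx : ∃ x s, x ∈ F ∧ R = List.replicate k C ++ x :: s)
    (NI : ∀ u g g' u', g ∈ F → g' ∈ F →
      f :: (R ++ [f']) = u ++ g :: (List.replicate k C ++ g' :: u') → u = [] ∨ u' = []) :
    (D ∈ F → p = k) ∧ (D ∉ F → p = k + 1 ∧ C ∈ F) := by
  obtain ⟨x, s, hxF, hx2⟩ := hx
  have h1 := cmpR hD _ _ _ _ _ (hR.symm.trans hx2)
  constructor
  · intro hDF
    rcases h1 with ⟨h2, h3⟩ | h2
    · exfalso
      rw [h3] at hxF
      have e : List.replicate p C = List.replicate (p - k - 1) C ++ C :: List.replicate k C := by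
        rw [← List.replicate_succ, ← List.replicate_add]
        congr 1
        omega
      have := NI (f :: List.replicate (p - k - 1) C) C D (M ++ [f']) hxF hDF (by
        rw [hR, e]; simp)
      simp at this
    · exact h2.1.symm
  · intro hDF
    rcases h1 with ⟨h2, h3⟩ | ⟨_, h2, _⟩
    · rw [h3] at hxF
      refine ⟨?_, hxF⟩
      by_contra hne
      have e : List.replicate p C =
          C :: (List.replicate k C ++ C :: List.replicate (p - k - 2) C) := by
        rw [← List.replicate_succ, ← List.replicate_add, ← List.replicate_succ]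
        congr 1
        omega
      have := NI [f] C C (List.replicate (p - k - 2) C ++ D :: (M ++ [f'])) hxF hxF (by
        rw [hR, e]; simp)
      simp at this
    · rw [h2] at hxF
      exact absurd hxF hDF

theorem edge_good {F : Set β} {f D : β} {g : β ⊕ ℕ} {k p : ℕ} (hf : f ∈ F)
    (hfl : Fl m C D0 p f g) (he : (D ∈ F → p = k) ∧ (D ∉ F → p = k + 1 ∧ C ∈ F)) :
    good C k F (nxt D0 g) (run m g) D := by
  by_cases hD : D ∈ F
  · have hp := he.1 hD
    rcases hfl with ⟨h1, h2⟩ | ⟨h1, h2⟩
    · rw [h2] at hf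
      by_cases h3 : run m g = k + 1
      · exact Or.inr (Or.inl ⟨hf, h3, Or.inr hD⟩)
      · exact Or.inl ⟨hf, by omega⟩
    · rw [h2] at hf
      exact Or.inr (Or.inr ⟨by omega, hf, hD⟩)
  · obtain ⟨hp, hC⟩ := he.2 hD
    rcases hfl with ⟨h1, h2⟩ | ⟨h1, h2⟩
    · exact Or.inl ⟨hC, by omega⟩
    · rw [h2] at hf
      exact Or.inr (Or.inl ⟨hC, by omega, Or.inl hf⟩)

theorem theta_length (hY : YL Y C D0) (hm : 1 ≤ m) : ∀ y ∈ Y, y.length ≤ (theta m C y).length := by
  intro y
  induction y with
  | nil => intro _; simp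
  | cons g y ih =>
    intro hy
    have h1 := ih (hY.fac' hy ⟨[g], [], by simp⟩)
    cases g with
    | inl D => rw [theta_inl]; simp; omega
    | inr n =>
      have := hY.pos n (hY.fac' hy ⟨[], y, by simp⟩)
      rw [theta_inr]; simp; omega

theorem TT_length (hY : YL Y C D0) (hm : 1 ≤ m) {ω : List (β ⊕ ℕ)} (hω : ω ∈ Y) (hbr : Br ω)
    (hnp : ω.reverse ≠ ω) : ω.length < (TT m C ω).length := by
  rcases hbr.cases with ⟨D, rfl⟩ | ⟨D, τ, D', rfl⟩
  · exact absurd rfl hnp
  · have h1 := theta_length hY hm τ (hY.fac' hω ⟨[Sum.inl D], [Sum.inl D'], by simp⟩)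
    simp only [TT]
    rw [theta_append, theta_inl, theta_nil]
    simp
    omega

theorem flankQ (hY : YL Y C D0) {ω : List (β ⊕ ℕ)} (hω : ω ∈ Y) (hbr : Br ω) {Q s : List β}
    {i : ℕ} {x : β} {F : Set β} (hQ : BrW C Q) (hx : x ∈ F)
    (h : TT m C ω ++ List.replicate i C = Q ++ (List.replicate i C ++ x :: s)) :
    ∃ q g1 ω3, ω = q ++ g1 :: ω3 ∧ Br q ∧ TT m C q = Q ∧ g1 ∈ GG m C D0 i F := by
  rcases List.append_eq_append_iff.1 h with ⟨a, h1, h2⟩ | ⟨a, h1, h2⟩
  · exfalso
    have := congrArg List.length h2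
    simp at this
    omega
  · obtain ⟨q, ω'', h3, h4, h5, h6⟩ := dec2 hbr hQ h1
    cases ω'' with
    | nil =>
      exfalso
      rw [h6, theta_nil] at h2
      have := congrArg List.length h2
      simp at this
    | cons g1 ω3 =>
      refine ⟨q, g1, ω3, h3, h4, h5, ?_⟩
      have hmem : g1 :: ω3 ∈ Y := hY.fac' hω ⟨q, [], by rw [h3]; simp⟩
      have hend : ∃ D v, g1 :: ω3 = v ++ [Sum.inl D] := by
        obtain ⟨_, D, v, hv⟩ := hbr
        rcases List.eq_nil_or_concat (g1 :: ω3) with h9 | ⟨c, b, h9⟩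
        · simp at h9
        · rw [List.concat_eq_append] at h9
          rw [h3, h9, ← List.append_assoc] at hv
          have := List.append_inj_right' hv rfl
          exact ⟨D, c, by rw [h9, this]⟩
      obtain ⟨rest, hrest⟩ := RC (m := m) hY hmem hend
      rw [h6, hrest] at h2
      have h7 : List.replicate (run m g1) C ++ nxt D0 g1 :: (rest ++ List.replicate i C) =
          List.replicate i C ++ x :: s := by rw [h2]; simp
      rcases cmpR (nxt_ne hY hmem (by simp)) _ _ _ _ _ h7 with h8 | h8
      · exact Or.inl ⟨h8.1, h8.2 ▸ hx⟩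
      · exact Or.inr ⟨h8.1, h8.2.1 ▸ hx⟩

/-- the coded language -/
def VV (m : ℕ) (C : β) (Y : Set (List (β ⊕ ℕ))) : Set (List β) :=
  {z | ∃ yh ∈ Y, Br yh ∧ z <:+: TT m C yh}

theorem stepB (hY : YL Y C D0) (hm : 1 ≤ m) {N : ℕ} (hA : PA Y N) (hB : PB Y N) :
    PB (VV m C Y) (N + 1) := by
  intro F P f f' R hP hf hf' hz hlen hx1 hx2 NI
  obtain ⟨yh, hyh, hbr, Z1, Z2, hTT⟩ := hz
  rcases trim C R with ⟨p, hR⟩ | ⟨p, W, p', hR, hW⟩
  · rw [hR]; simp
  by_contra hnp
  have hdec : TT m C yh = Z1 ++ f :: List.replicate p C ++ W ++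
      (List.replicate p' C ++ f' :: Z2) := by
    rw [← hTT, hR]; simp
  obtain ⟨y1, g, ω, g', y2, e1, hbω, hTω, hfl1, hfl2⟩ := dec hY hyh hbr hW hdec
  have hmem : g :: (ω ++ [g']) ∈ Y := hY.fac' hyh ⟨y1, y2, by rw [e1]; simp⟩
  have hωY : ω ∈ Y := hY.fac' hmem ⟨[g], [g'], by simp⟩
  have NIr : ∀ u a b u', a ∈ F → b ∈ F →
      f' :: (R.reverse ++ [f]) = u ++ a :: (P ++ b :: u') → u = [] ∨ u' = [] := by
    intro u a b u' ha hb h
    have h1 := congrArg List.reverse h
    simp only [List.reverse_cons, List.reverse_append, List.reverse_reverse,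
      List.append_assoc, hP, List.reverse_nil, List.nil_append, List.cons_append] at h1
    rcases NI u'.reverse b a u.reverse hb ha h1 with h2 | h2
    · right; simpa using h2
    · left; simpa using h2
  -- an occurrence inside `W` gives a contradiction
  have inside : ∀ w1 f3 f4 w2, f3 ∈ F → f4 ∈ F → TT m C ω = w1 ++ f3 :: (P ++ f4 :: w2) →
      False := by
    intro w1 f3 f4 w2 h3 h4 h5
    have := NI (f :: List.replicate p C ++ w1) f3 f4 (w2 ++ List.replicate p' C ++ [f']) h3 h4 (by
      rw [hR, ← hTω, h5]; simp)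
    simp at this
  have hRlen : W.length ≤ R.length := by rw [hR]; simp; omega
  rcases trim_pal (C := C) hP with ⟨k, hPk⟩ | ⟨i, Q, hPi, hQ, hQr⟩
  · -- P = C^k
    subst hPk
    obtain ⟨⟨D, M, hD1, hD2⟩, D', M', hD3, hD4⟩ := id hW
    have ed1 := edge (R := R) (p := p) (M := M ++ List.replicate p' C) hD2 (by rw [hR, hD1]; simp) hx1 NI
    have hx2' : ∃ x s, x ∈ F ∧ R.reverse = List.replicate k C ++ x :: s := by
      obtain ⟨x, s, hx, hs⟩ := hx2
      exact ⟨x, s.reverse, hx, by rw [hs]; simp⟩
    have ed2 := edge (R := R.reverse) (p := p') (M := M'.reverse ++ List.replicate p C) hD4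
      (by rw [hR, hD3]; simp) hx2' NIr
    have g1 := edge_good hf hfl1 ed1
    have g2 := good_symm (edge_good hf' hfl2 ed2)
    have hωD : ∃ v, ω = Sum.inl D :: v := by
      obtain ⟨⟨E, v, hv⟩, _⟩ := id hbω
      rw [hv] at hTω
      have : E :: theta m C v = D :: M := by rw [← hD1, ← hTω]; rfl
      exact ⟨v, by rw [hv, (List.cons_eq_cons.1 this).1]⟩
    have hωD' : ∃ v, ω = v ++ [Sum.inl D'] := by
      obtain ⟨_, E, v, hv⟩ := id hbω
      rw [hv] at hTω
      obtain ⟨r, hr⟩ := TT_concat (m := m) (C := C) v E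
      rw [hr, hD3] at hTω
      have := List.append_inj_right' hTω rfl
      refine ⟨v, ?_⟩
      rw [hv]
      simp at this
      rw [this]
    obtain ⟨v, hv⟩ := hωD
    obtain ⟨v', hv'⟩ := hωD'
    by_cases hωr : ω.reverse = ω
    · apply hnp
      have hWr : W.reverse = W := by rw [← hTω, TT_rev hbω, hωr]
      have hDD : D = D' := by
        rw [hv] at hv'
        have h1 := hωr
        rw [hv] at h1
        have h2 : (Sum.inl D :: v : List (β ⊕ ℕ)).reverse = Sum.inl D' :: v'.reverse := by
          rw [hv']; simp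
        rw [h2] at h1
        have := (List.cons_eq_cons.1 h1).1
        simp at this
        exact this.symm
      have hpp : p = p' := by
        rw [← hDD] at ed2
        by_cases hDF : D ∈ F
        · rw [ed1.1 hDF, ed2.1 hDF]
        · rw [(ed1.2 hDF).1, (ed2.2 hDF).1]
      rw [hR, hpp]
      simp [hWr]
    · have hl := TT_length hY hm hωY hbω hωr
      rw [hTω] at hl
      obtain ⟨w1, f3, f4, w2, h3, h4, h5⟩ := lift2 (lemmaM hY hA hB hmem (by omega) hv hv' g1 g2 hωr)
      exact inside w1 f3 f4 w2 h3 h4 h5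
  · -- P = C^i Q C^i
    obtain ⟨x, s, hxF, hxs⟩ := hx1
    obtain ⟨x', s', hxF', hxs'⟩ := hx2
    obtain ⟨⟨Dq, Mq, hq1, hq2⟩, _⟩ := id hQ
    have left : ∀ (p p' : ℕ) (W : List β) (x : β) (s : List β), BrW C W →
        List.replicate p C ++ W ++ List.replicate p' C = P ++ x :: s →
        i = p ∧ W ++ List.replicate p' C = Q ++ (List.replicate i C ++ x :: s) := by
      intro p p' W x s hW h
      obtain ⟨⟨D, M, hD1, hD2⟩, _⟩ := hW
      have h1 : List.replicate p C ++ D :: (M ++ List.replicate p' C) =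
          List.replicate i C ++ Dq :: (Mq ++ (List.replicate i C ++ x :: s)) := by
        rw [hD1, hPi, hq1] at h
        simpa using h
      obtain ⟨h2, h3, h4⟩ := lead hD2 hq2 h1
      refine ⟨h2, ?_⟩
      rw [hD1, hq1, h3]
      rw [List.cons_append, List.cons_append, h4]
    obtain ⟨hip, hl1⟩ := left p p' W x s hW (by rw [← hR]; exact hxs)
    obtain ⟨hip', hl2⟩ := left p' p W.reverse x' s'.reverse hW.rev (by
      have := congrArg List.reverse hxs'
      rw [hR] at this
      simp only [List.reverse_append, List.reverse_cons, List.reverse_replicate,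
        List.append_assoc, List.nil_append, List.cons_append, hP] at this
      simpa using this)
    subst hip
    subst hip'
    obtain ⟨q, g1, ω3, h1, h2, h3, h4⟩ := flankQ (m := m) hY hωY hbω hQ hxF (by rw [hTω]; exact hl1)
    obtain ⟨q', g2, ω3', k1, k2, k3, k4⟩ := flankQ (m := m) hY (hY.rev _ hωY) hbω.rev hQ hxF' (by
      rw [← TT_rev hbω, hTω]; exact hl2)
    have hqY : q ∈ Y := hY.fac' hωY ⟨[], g1 :: ω3, by rw [h1]; simp⟩
    have hqY' : q' ∈ Y := hY.fac' (hY.rev _ hωY) ⟨[], g2 :: ω3', by rw [k1]; simp⟩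
    have hqq : q' = q := TT_inj (m := m) hY hqY' hqY k2 h2 (by rw [k3, h3])
    have hqr : q.reverse = q := TT_inj (m := m) hY (hY.rev _ hqY) hqY h2.rev h2 (by
      rw [← TT_rev h2, h3, hQr])
    rw [hqq] at k1
    have hω2 : ω = ω3'.reverse ++ g2 :: q := by
      have := congrArg List.reverse k1
      simp only [List.reverse_reverse, List.reverse_append, List.reverse_cons, hqr,
        List.append_assoc, List.nil_append, List.cons_append] at this
      exact this
    have hωr : ω.reverse ≠ ω := by
      intro hωr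
      apply hnp
      have hWr : W.reverse = W := by rw [← hTω, TT_rev hbω, hωr]
      rw [hR]
      simp [hWr]
    have hl := TT_length hY hm hωY hbω hωr
    rw [hTω] at hl
    apply hωr
    refine hB (GG m C D0 i F) q g g' ω hqr (hfl1.mem hf) (hfl2.mem hf') hmem (by omega)
      ⟨g1, ω3, h4, h1⟩ ⟨g2, ω3'.reverse, k4, hω2⟩ ?_
    intro u a b u' ha hb hdec2
    by_contra hne
    push Not at hne
    obtain ⟨u1, u2, hu12⟩ := mid_decomp hdec2 hne.1 hne.2
    obtain ⟨w1, f3, f4, w2, h5, h6, h7⟩ := lift (m := m) hY hωY hbω h2 hu12 ha hb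
    rw [h3, ← hPi] at h7
    exact inside w1 f3 f4 w2 h5 h6 h7

end partE

section partF

section step

variable {β : Type*} {m : ℕ} {C D0 : β} {Y : Set (List (β ⊕ ℕ))}

theorem extBr_right (hY : YL Y C D0) {w : List (β ⊕ ℕ)} (hw : w ∈ Y) :
    ∃ b D, w ++ (b ++ [Sum.inl D]) ∈ Y := by
  obtain ⟨c1, h1⟩ := hY.extr w hw
  obtain ⟨c2, h2⟩ := hY.extr _ h1
  have h3 : [c1, c2] ∈ Y := hY.fac' h2 ⟨w, [], by simp⟩
  rcases hY.pair _ _ h3 with h4 | h4
  · exact ⟨[], D0, by rw [← h4]; simpa using h1⟩
  · exact ⟨[c1], D0, by rw [← h4]; simpa using h2⟩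

theorem extBr (hY : YL Y C D0) {w : List (β ⊕ ℕ)} (hw : w ∈ Y) :
    ∃ a b, a ≠ [] ∧ b ≠ [] ∧ a ++ w ++ b ∈ Y ∧ Br (a ++ w ++ b) := by
  obtain ⟨b, D, h1⟩ := extBr_right hY hw
  obtain ⟨a, E, h2⟩ := extBr_right hY (hY.rev _ h1)
  have h3 := hY.rev _ h2
  have e : ((w ++ (b ++ [Sum.inl D])).reverse ++ (a ++ [Sum.inl E])).reverse =
      (Sum.inl E :: a.reverse) ++ w ++ (b ++ [Sum.inl D]) := by simp
  rw [e] at h3
  refine ⟨Sum.inl E :: a.reverse, b ++ [Sum.inl D], by simp, by simp, h3, ?_, ?_⟩
  · exact ⟨E, a.reverse ++ w ++ (b ++ [Sum.inl D]), by simp⟩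
  · exact ⟨D, Sum.inl E :: a.reverse ++ w ++ b, by simp⟩

theorem theta_mem_VV (hY : YL Y C D0) {y : List (β ⊕ ℕ)} (hy : y ∈ Y) {z : List β}
    (hz : z <:+: theta m C y) : z ∈ VV m C Y := by
  obtain ⟨a, b, ha, hb, h1, h2⟩ := extBr hY hy
  refine ⟨a ++ y ++ b, h1, h2, hz.trans ?_⟩
  rw [List.append_assoc, TT_append ha, theta_append]
  exact ⟨TT m C a, theta m C b, by simp⟩

theorem stepA (hY : YL Y C D0) (hm : 1 ≤ m) {N : ℕ} (hA : PA Y N) :
    PA (VV m C Y) (N + 1) := by
  intro F f f' t hf hf' hz hlen ht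
  obtain ⟨yh, hyh, hbr, Z1, Z2, hTT⟩ := hz
  by_cases hC : C ∈ F
  · cases t with
    | nil => rfl
    | cons x t =>
      cases t with
      | nil => rfl
      | cons y t =>
        exfalso
        have hx : x ≠ C := by
          rintro rfl
          exact ht x (by simp) hC
        have hy : y ≠ C := by
          rintro rfl
          exact ht y (by simp) hC
        obtain ⟨y1, g, ω, g', y2, e1, hbω, hTω, hfl1, hfl2⟩ := dec (p := 0) (p' := 0) (f := f)
          (f' := y) (W := [x]) (Z1 := Z1) (Z2 := t ++ [f'] ++ Z2) hY hyh hbr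
          ⟨⟨x, [], rfl, hx⟩, x, [], rfl, hx⟩ (by rw [← hTT]; simp)
        rcases hfl2 with ⟨_, h2⟩ | ⟨h1, _⟩
        · exact hy h2
        · cases g' with
          | inl D => simp only [run] at h1; omega
          | inr n => simp only [run] at h1; omega
  · have hfC : f ≠ C := by rintro rfl; exact hC hf
    have hfC' : f' ≠ C := by rintro rfl; exact hC hf'
    -- extend on both sides
    obtain ⟨a, b, ha, hb, h1, h2⟩ := extBr hY hyh
    have e1 : ∃ X c c' X', TT m C (a ++ yh ++ b) = X ++ c :: (TT m C yh ++ c' :: X') := by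
      have hane : ∃ a1 c, TT m C a ++ List.replicate m C = a1 ++ [c] := by
        have hne : TT m C a ++ List.replicate m C ≠ [] := by
          intro h
          have := congrArg List.length h
          simp at this
          omega
        rcases List.eq_nil_or_concat (TT m C a ++ List.replicate m C) with h | ⟨a1, c, h⟩
        · exact absurd h hne
        · exact ⟨a1, c, by rw [h, List.concat_eq_append]⟩
      obtain ⟨a1, c, hac⟩ := hane
      have hbne : ∃ c' X', theta m C b = c' :: X' := by
        cases b with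
        | nil => exact absurd rfl hb
        | cons g b =>
          have hl := theta_length hY hm (g :: b) (hY.fac' h1 ⟨a ++ yh, [], by simp⟩)
          cases hth : theta m C (g :: b) with
          | nil => rw [hth] at hl; simp at hl
          | cons c' X' => exact ⟨c', X', rfl⟩
      obtain ⟨c', X', hc'⟩ := hbne
      refine ⟨a1, c, c', X', ?_⟩
      rw [List.append_assoc, TT_append ha, theta_append, theta_eq_TT hbr, hc']
      have : TT m C a ++ (List.replicate m C ++ TT m C yh ++ c' :: X') =
          (TT m C a ++ List.replicate m C) ++ (TT m C yh ++ c' :: X') := by simp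
      rw [this, hac]
      simp
    obtain ⟨X, c, c', X', hX⟩ := e1
    obtain ⟨Z1', e, hZ1⟩ : ∃ Z1' e, X ++ c :: Z1 = Z1' ++ [e] := by
      rcases List.eq_nil_or_concat (X ++ c :: Z1) with h | ⟨a1, c1, h⟩
      · simp at h
      · exact ⟨a1, c1, by rw [h, List.concat_eq_append]⟩
    obtain ⟨e', Z2', hZ2⟩ : ∃ e' Z2', Z2 ++ c' :: X' = e' :: Z2' := by
      cases Z2 with
      | nil => exact ⟨c', X', rfl⟩
      | cons e' Z2 => exact ⟨e', Z2 ++ c' :: X', rfl⟩
    obtain ⟨y1, g, ω, g', y2, e1, hbω, hTω, _, _⟩ := dec (p := 0) (p' := 0) (f := e)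
      (f' := e') (W := f :: (t ++ [f'])) (Z1 := Z1') (Z2 := Z2') hY h1 h2
      ⟨⟨f, _, rfl, hfC⟩, f', f :: t, rfl, hfC'⟩ (by
        rw [hX, ← hTT]
        have : X ++ c :: (Z1 ++ f :: (t ++ [f']) ++ Z2 ++ c' :: X') =
          (X ++ c :: Z1) ++ (f :: (t ++ [f'])) ++ (Z2 ++ c' :: X') := by simp
        rw [this, hZ1, hZ2]
        simp)
    have hωY : ω ∈ Y := hY.fac' h1 ⟨y1 ++ [g], g' :: y2, by rw [e1]; simp⟩
    rcases hbω.cases with ⟨D, hD⟩ | ⟨D, τ, D', hD⟩
    · exfalso
      rw [hD] at hTω
      have := congrArg List.length hTω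
      simp [TT, theta_nil] at this
    · rw [hD] at hTω hωY
      have h3 : D :: (theta m C τ ++ List.replicate m C ++ [D']) = f :: (t ++ [f']) := by
        rw [← hTω]
        simp only [TT]
        rw [theta_append, theta_inl, theta_nil]
        simp
      obtain ⟨h4, h5⟩ := List.cons_eq_cons.1 h3
      obtain ⟨h6, h7⟩ := List.append_inj' h5 rfl
      simp only [List.cons.injEq, and_true] at h7
      subst h4
      subst h7
      have hτY : τ ∈ Y := hY.fac' hωY ⟨[Sum.inl D], [Sum.inl D'], by simp⟩
      have hl := theta_length hY hm τ hτY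
      have h8 : t.length = (theta m C τ).length + m := by rw [← h6]; simp
      have h9 : τ.reverse = τ := by
        apply hA {x | ∃ h ∈ F, x = Sum.inl h} (Sum.inl D) (Sum.inl D') τ ⟨D, hf, rfl⟩
          ⟨D', hf', rfl⟩ hωY (by omega)
        rintro x hx ⟨h, hh, rfl⟩
        apply ht h _ hh
        rw [← h6]
        obtain ⟨a2, b2, hab⟩ := List.append_of_mem hx
        rw [hab, theta_append, theta_inl]
        simp
      rw [← h6, theta_rev, h9]

end step

/-- the projected language -/
def img {α β : Type*} (ζ : α → β) (L : Set (List α)) : Set (List β) := {z | ∃ w ∈ L, z = w.map ζ}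

theorem PA.mono {γ : Type*} {V V' : Set (List γ)} {N : ℕ} (h : PA V' N) (hV : V ⊆ V') : PA V N :=
  fun F f f' t hf hf' hz hlen ht => h F f f' t hf hf' (hV hz) hlen ht

theorem PB.mono {γ : Type*} {V V' : Set (List γ)} {N : ℕ} (h : PB V' N) (hV : V ⊆ V') : PB V N :=
  fun F P f f' R hP hf hf' hz hlen h1 h2 h3 => h F P f f' R hP hf hf' (hV hz) hlen h1 h2 h3

theorem adjacent {α : Type*} {K : Set α} : ∀ (r : List α) (b b' : α), b ∉ K → b' ∉ K →
    ∃ t c r', (∀ e ∈ t, e ∈ K) ∧ c ∉ K ∧ r ++ [b'] = t ++ c :: r' := by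
  intro r
  induction r with
  | nil => intro b b' _ hb'; exact ⟨[], b', [], by simp, hb', rfl⟩
  | cons a r ih =>
    intro b b' hb hb'
    by_cases ha : a ∈ K
    · obtain ⟨t, c, r', h1, h2, h3⟩ := ih b b' hb hb'
      refine ⟨a :: t, c, r', ?_, h2, by rw [List.cons_append, h3]; rfl⟩
      intro e he
      rcases List.mem_cons.1 he with h4 | h4
      · rw [h4]; exact ha
      · exact h1 e h4
    · exact ⟨[], a, r ++ [b'], by simp, ha, rfl⟩

theorem YL_of_Epi {α β : Type*} {L : Set (List α)} (h : Epi L) {d : α} (hs : Epi.Sep L d)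
    (ζ : α → β) (C : β) (ℓ : α → ℕ) (hℓ : ∀ e, 1 ≤ ℓ e) (hd : d ∉ {e | ζ e = C}) :
    YL (img (fun b => if b ∈ {e | ζ e = C} then (Sum.inr (ℓ b) : β ⊕ ℕ) else Sum.inl (ζ b)) L) C
      (ζ d) := by
  refine ⟨?_, ?_, ?_, ?_, ?_, ?_, ?_⟩
  · rintro x w y ⟨v, hv, hv2⟩
    obtain ⟨v1, v2, h1, h2, h3⟩ := List.append_eq_map_iff.1 hv2
    obtain ⟨v3, v4, h4, h5, h6⟩ := List.append_eq_map_iff.1 h2.symm
    exact ⟨v4, h.fac' hv ⟨v3, v2, by rw [h1, h4]⟩, h6.symm⟩
  · rintro w ⟨v, hv, rfl⟩
    exact ⟨v.reverse, h.rev v hv, by rw [List.map_reverse]⟩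
  · rintro w ⟨v, hv, rfl⟩
    obtain ⟨c, hc⟩ := h.ext_right hv
    exact ⟨_, v ++ [c], hc, by rw [List.map_append]; rfl⟩
  · rintro x y ⟨v, hv, hv2⟩
    match v, hv2 with
    | [a, b], hv2 =>
      simp only [List.map_cons, List.map_nil, List.cons.injEq, and_true] at hv2
      rcases hs a b hv with h1 | h1
      · left; rw [hv2.1, h1, if_neg hd]
      · right; rw [hv2.2, h1, if_neg hd]
  · rintro D ⟨v, hv, hv2⟩
    match v, hv, hv2 with
    | [], _, hv2 => simp at hv2
    | _ :: _ :: _, _, hv2 => simp at hv2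
    | [a], hv, hv2 =>
      simp only [List.map_cons, List.map_nil, List.cons.injEq, and_true] at hv2
      by_cases ha : a ∈ {e | ζ e = C}
      · rw [if_pos ha] at hv2; simp at hv2
      · rw [if_neg ha] at hv2
        simp only [Sum.inl.injEq] at hv2
        rw [hv2]
        exact ha
  · rintro n ⟨v, hv, hv2⟩
    match v, hv, hv2 with
    | [], _, hv2 => simp at hv2
    | _ :: _ :: _, _, hv2 => simp at hv2
    | [a], hv, hv2 =>
      simp only [List.map_cons, List.map_nil, List.cons.injEq, and_true] at hv2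
      by_cases ha : a ∈ {e | ζ e = C}
      · rw [if_pos ha] at hv2
        simp only [Sum.inr.injEq] at hv2
        rw [hv2]
        exact hℓ a
      · rw [if_neg ha] at hv2; simp at hv2
  · exact hd

theorem map_eq_cod {α β : Type*} (ζ : α → β) (C : β) (w : List α) :
    w.map ζ = cod {e | ζ e = C} C ζ 0 (fun _ => 1) w := by
  induction w with
  | nil => rfl
  | cons b w ih =>
    rw [cod_cons, List.map_cons, ih]
    by_cases h : b ∈ {e | ζ e = C}
    · rw [if_pos h]
      have : ζ b = C := h
      rw [this]; rfl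
    · rw [if_neg h]; rfl

theorem main {α : Type*} : ∀ (N : ℕ) (β : Type) (L : Set (List α)) (ζ : α → β), Epi L →
    PA (img ζ L) N ∧ PB (img ζ L) N := by
  intro N
  induction N with
  | zero =>
    intro β L ζ _
    exact ⟨fun F f f' t _ _ _ hlen _ => by omega, fun F P f f' R _ _ _ _ hlen _ _ _ => by omega⟩
  | succ N ih =>
    intro β L ζ h
    obtain ⟨x, hx, hs⟩ := h.exists_sep
    obtain ⟨C, hC⟩ : ∃ C, C = ζ x := ⟨_, rfl⟩
    have hxK : x ∈ {e | ζ e = C} := hC.symm
    by_cases hall : ∀ b, [b] ∈ L → b ∈ {e | ζ e = C}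
    · have hrep : ∀ z ∈ img ζ L, ∀ a ∈ z, a = C := by
        rintro z ⟨w, hw, rfl⟩ a ha
        obtain ⟨b, hb, rfl⟩ := List.mem_map.1 ha
        obtain ⟨s, t, rfl⟩ := List.append_of_mem hb
        exact hall b (h.fac' hw ⟨s, t, by simp⟩)
      have pal : ∀ t : List β, (∀ a ∈ t, a = C) → t.reverse = t := by
        intro t ht
        rw [List.eq_replicate_of_mem ht]; simp
      constructor
      · intro F f f' t _ _ hz _ _
        apply pal
        intro a ha
        exact hrep _ hz a (by simp [ha])
      · intro F P f f' R _ _ _ hz _ _ _ _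
        apply pal
        intro a ha
        exact hrep _ hz a (by simp [ha])
    · push Not at hall
      obtain ⟨b, hbL, hbK⟩ := hall
      have hbx : b ≠ x := by rintro rfl; exact hbK hxK
      have h1 := der_epi h hx hs
      have hb1 : [b] ∈ der L x := by
        obtain ⟨w', hw', hbw⟩ := cover h hx hs hbL
        have hb2 : b ∈ psi x w' := hbw.subset (by simp)
        rw [psi, List.mem_flatMap] at hb2
        obtain ⟨c, hc, hbc⟩ := hb2
        have hcb : c = b := by
          by_cases hcx : c = x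
          · rw [if_pos hcx] at hbc
            simp at hbc
            exact absurd hbc hbx
          · rw [if_neg hcx] at hbc
            simp at hbc
            rcases hbc with h2 | h2
            · exact absurd h2 hbx
            · exact h2.symm
        rw [hcb] at hc
        obtain ⟨s, t, rfl⟩ := List.append_of_mem hc
        exact h1.fac' hw' ⟨s, t, by simp⟩
      obtain ⟨t0, ht0⟩ := h1.conn _ hb1 _ hb1
      obtain ⟨t, c, r', h2, h3, h4⟩ := adjacent t0 b b hbK hbK
      have h5 : b :: (t ++ [c]) ∈ der L x := by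
        apply h1.fac' ht0
        refine ⟨[], r', ?_⟩
        rw [List.append_assoc [b] t0 [b], h4]
        simp
      obtain ⟨L', m', ℓ', d, k1, k2, k3, k4, k5, k6⟩ := chain {e | ζ e = C} C ζ t.length
        (der L x) (1 + 0) (fun e => if e = x then 1 else 1 + 1) h1
        ⟨b, t, c, hbK, h3, h2, le_rfl, h5⟩
      have hℓ : ∀ e, 1 ≤ ℓ' e := by
        intro e
        refine le_trans ?_ (k5 e)
        by_cases he : e = x <;> simp [he]
      have hY := YL_of_Epi k1 k2 ζ C ℓ' hℓ k3
      have hsub : img ζ L ⊆ VV m' C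
          (img (fun b => if b ∈ {e | ζ e = C} then (Sum.inr (ℓ' b) : β ⊕ ℕ) else Sum.inl (ζ b))
            L') := by
        rintro z ⟨w, hw, rfl⟩
        obtain ⟨w1, hw1, hw2⟩ := cover h hx hs hw
        obtain ⟨w2, hw3, hw4⟩ := k6 w1 hw1
        apply theta_mem_VV hY (y := w2.map _) ⟨w2, hw3, rfl⟩
        rw [← cod_eq_theta, map_eq_cod ζ C]
        refine (cod_infix _ _ _ _ _ hw2).trans ?_
        rw [cod_psi _ _ _ _ _ hxK]
        exact hw4
      obtain ⟨i1, i2⟩ := ih (β ⊕ ℕ) L' (fun b => if b ∈ {e | ζ e = C} then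
        (Sum.inr (ℓ' b) : β ⊕ ℕ) else Sum.inl (ζ b)) k1
      exact ⟨(stepA hY (by omega) i1).mono hsub, (stepB hY (by omega) i1 i2).mono hsub⟩

end partF

section partG

/-- The factors of an infinite word `u`: the finite blocks `u_i u_{i+1} ... u_{i+n-1}`, `n ≥ 0`. -/
def factors {A : Type} (u : ℕ → A) : Set (List A) :=
  {w | ∃ i n, w = (List.range n).map (fun j => u (i + j))}

/-- `w` is a left special factor of `u`. -/
def LeftSpecial {A : Type} (u : ℕ → A) (w : List A) : Prop :=
  w ∈ factors u ∧ ∃ a b, a ≠ b ∧ a :: w ∈ factors u ∧ b :: w ∈ factors u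

/-- `u` is episturmian: its set of factors is closed under reversal and for every `n` it has at most
one left special factor of length `n`. -/
def Episturmian {A : Type} (u : ℕ → A) : Prop :=
  (∀ w ∈ factors u, w.reverse ∈ factors u) ∧
  ∀ n w w', LeftSpecial u w → LeftSpecial u w' → w.length = n → w'.length = n → w = w'

/-- The palindromic factors of a finite word (the empty word included). -/
def palFactors {B : Type} (w : List B) : Set (List B) := {p | p <:+: w ∧ p.reverse = p}

/-- A finite word is rich if it has `|w| + 1` palindromic factors. -/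
def Rich {B : Type} (w : List B) : Prop := (palFactors w).ncard = w.length + 1

/-- An infinite word is rich if all its factors are rich. -/
def RichWord {B : Type} (v : ℕ → B) : Prop := ∀ w ∈ factors v, Rich w

theorem factors_fac {A : Type} {u : ℕ → A} {x w y : List A} (h : x ++ w ++ y ∈ factors u) :
    w ∈ factors u := by
  obtain ⟨i, n, h⟩ := h
  refine ⟨i + x.length, w.length, ?_⟩
  apply List.ext_getElem
  · simp
  · intro k h1 h2
    have h3 : n = x.length + w.length + y.length := by
      have := congrArg List.length h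
      simp at this
      omega
    have h4 : (x ++ w ++ y)[x.length + k]? = w[k]? := by
      rw [List.append_assoc, List.getElem?_append_right (by omega), Nat.add_sub_cancel_left,
        List.getElem?_append_left h1]
    rw [h, List.getElem?_map, List.getElem?_range (by omega), List.getElem?_eq_getElem h1] at h4
    simp only [Option.map_some, Option.some.injEq] at h4
    rw [← h4]
    simp only [List.getElem_map, List.getElem_range]
    congr 1
    omega

theorem factors_concat {A : Type} (u : ℕ → A) (i a b : ℕ) :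
    (List.range (a + b)).map (fun j => u (i + j)) =
      (List.range a).map (fun j => u (i + j)) ++ (List.range b).map (fun j => u (i + a + j)) := by
  rw [List.range_add, List.map_append, List.map_map]
  congr 1
  apply List.map_congr_left
  intro j _
  simp only [Function.comp]
  congr 1
  omega

/-- every factor occurs at arbitrarily large positions -/
theorem recurrent {A : Type} {u : ℕ → A} (h : ∀ w ∈ factors u, w.reverse ∈ factors u) {w : List A}
    (hw : w ∈ factors u) (K : ℕ) :
    ∃ i, K ≤ i ∧ w = (List.range w.length).map (fun j => u (i + j)) := by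
  -- let `w` occur at `i₀`; take the reversal of a long prefix twice
  obtain ⟨i₀, n, hw0⟩ := hw
  have hn : w.length = n := by rw [hw0]; simp
  -- the prefix of length `i₀ + n + K`
  have occ : ∀ v ∈ factors u, ∃ i, v = (List.range v.length).map (fun j => u (i + j)) := by
    rintro v ⟨i, k, rfl⟩
    exact ⟨i, by simp⟩
  -- a prefix ending with a copy of `w` followed by `K` letters, reversed
  have step : ∀ (v : List A) (i : ℕ), v = (List.range v.length).map (fun j => u (i + j)) →
      ∀ K, ∃ i', K ≤ i' ∧ v.reverse = (List.range v.length).map (fun j => u (i' + j)) := by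
    intro v i hv K
    obtain ⟨p, hp⟩ : ∃ p, p = (List.range (i + v.length + K)).map (fun j => u (0 + j)) := ⟨_, rfl⟩
    have hpf : p ∈ factors u := ⟨0, _, hp⟩
    obtain ⟨i', hi'⟩ := occ _ (h p hpf)
    have hplen : p.length = i + v.length + K := by rw [hp]; simp
    rw [List.length_reverse, hplen] at hi'
    -- p = a ++ v ++ b with |b| = K
    have hdec : p = (List.range i).map (fun j => u (0 + j)) ++ v ++
        (List.range K).map (fun j => u (0 + (i + v.length) + j)) := by
      rw [hp, factors_concat, factors_concat]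
      congr 1
      congr 1
      rw [zero_add]
      exact hv.symm
    have hrev : p.reverse = ((List.range K).map (fun j => u (0 + (i + v.length) + j))).reverse ++
        v.reverse ++ ((List.range i).map (fun j => u (0 + j))).reverse := by
      rw [hdec]; simp
    refine ⟨i' + K, by omega, ?_⟩
    rw [show i + v.length + K = K + v.length + i by ring, factors_concat, factors_concat,
      hrev] at hi'
    have h1 := List.append_inj_left hi' (by simp)
    have h2 := List.append_inj_right h1 (by simp)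
    exact h2
  have hw1 : w = (List.range w.length).map (fun j => u (i₀ + j)) := by rw [hn]; exact hw0
  obtain ⟨i1, _, h1⟩ := step w i₀ hw1 0
  obtain ⟨i2, h2, h3⟩ := step w.reverse i1 (by rw [List.length_reverse]; exact h1) K
  rw [List.reverse_reverse, List.length_reverse] at h3
  exact ⟨i2, h2, h3⟩

theorem epi_factors {A : Type} {u : ℕ → A} (h : Episturmian u) : Epi (factors u) := by
  refine ⟨fun x w y => factors_fac, h.1, ?_, ?_, ?_⟩
  · intro w w' a b a' b' h1 h2 h3 h4 h5 h6 h7
    apply h.2 w.length w w' ⟨?_, a, b, h1, h3, h4⟩ ⟨?_, a', b', h2, h5, h6⟩ rfl h7.symm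
    · exact factors_fac (x := [a]) (y := []) (by simpa using h3)
    · exact factors_fac (x := [a']) (y := []) (by simpa using h5)
  · intro w hw w' hw'
    obtain ⟨i, n, hi⟩ := hw
    have hn : w.length = n := by rw [hi]; simp
    obtain ⟨i', hi', h2⟩ := recurrent h.1 hw' (i + n)
    obtain ⟨k, hk⟩ := Nat.exists_eq_add_of_le hi'
    refine ⟨(List.range k).map (fun j => u (i + n + j)), i, n + k + w'.length, ?_⟩
    rw [factors_concat, factors_concat, ← hi]
    congr 1
    rw [← Nat.add_assoc, ← hk]
    exact h2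
  · exact ⟨u 0, 0, 1, by simp⟩

/-- richness of the words of a language satisfying `PB` -/
theorem rich_of_PB {B : Type} {V : Set (List B)} (hfac : ∀ x w y, x ++ w ++ y ∈ V → w ∈ V)
    (hext : ∀ w ∈ V, ∃ c c', c :: (w ++ [c']) ∈ V) (hB : ∀ N, PB V N) :
    ∀ w ∈ V, (palFactors w).Finite ∧ Rich w := by
  intro w
  induction w using List.reverseRecOn with
  | nil =>
    intro _
    have e : palFactors ([] : List B) = {[]} := by
      ext p
      simp only [palFactors, Set.mem_ofPred_eq, Set.mem_singleton_iff]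
      constructor
      · rintro ⟨h1, _⟩
        exact List.eq_nil_of_infix_nil h1
      · rintro rfl
        exact ⟨List.infix_refl _, rfl⟩
    unfold Rich
    rw [e]
    exact ⟨Set.finite_singleton _, by simp⟩
  | append_singleton w x ih =>
    intro hw
    have hwV : w ∈ V := hfac [] w [x] (by simpa using hw)
    obtain ⟨hfin, hrich⟩ := ih hwV
    -- the longest palindromic suffix
    obtain ⟨q, hq1, hq2, hq3⟩ : ∃ q, q <:+ w ++ [x] ∧ q.reverse = q ∧
        ∀ p, p <:+ w ++ [x] → p.reverse = p → p.length ≤ q.length := by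
      have h0 : ∃ q, q <:+ w ++ [x] ∧ q.reverse = q ∧ q.length = 0 :=
        ⟨[], List.nil_suffix, rfl, rfl⟩
      have h1 := Nat.findGreatest_spec (P := fun n => ∃ q, q <:+ w ++ [x] ∧ q.reverse = q ∧
        q.length = n) (Nat.zero_le (w ++ [x]).length) h0
      obtain ⟨q, h2, h3, h4⟩ := h1
      refine ⟨q, h2, h3, ?_⟩
      intro p hp1 hp2
      rw [h4]
      exact Nat.le_findGreatest hp1.length_le ⟨p, hp1, hp2, rfl⟩
    have hqne : q ≠ [] := by
      rintro rfl
      have := hq3 [x] ⟨w, rfl⟩ rfl
      simp at this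
    obtain ⟨b, hb⟩ := hq1
    -- `q` does not occur in `w`
    have hqnot : ¬ q <:+: w := by
      intro hqw
      have hex : ∃ n, ∃ a r, w ++ [x] = a ++ q ++ r ∧ r.length = n ∧ r ≠ [] := by
        obtain ⟨a, r, har⟩ := hqw
        exact ⟨_, a, r ++ [x], by rw [← har]; simp, rfl, by simp⟩
      obtain ⟨a, r, h1, h2, h3⟩ := Nat.find_spec hex
      have hmin : ∀ a' r', w ++ [x] = a' ++ q ++ r' → r' ≠ [] → r.length ≤ r'.length := by
        intro a' r' h4 h5
        rw [h2]
        exact Nat.find_min' hex ⟨a', r', h4, rfl, h5⟩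
      obtain ⟨c, c', hc⟩ := hext _ hw
      obtain ⟨a', f, ha'⟩ : ∃ a' f, c :: a = a' ++ [f] := by
        rcases List.eq_nil_or_concat (c :: a) with h | ⟨a1, c1, h⟩
        · simp at h
        · exact ⟨a1, c1, by rw [h, List.concat_eq_append]⟩
      have hfR : f :: ((q ++ r) ++ [c']) ∈ V := by
        apply hfac a' _ []
        rw [h1] at hc
        have : c :: (a ++ q ++ r ++ [c']) = (c :: a) ++ (q ++ r ++ [c']) := by simp
        rw [this, ha'] at hc
        simpa using hc
      -- the suffix `q`
      have hsuf : ∃ s, q ++ r = s ++ q ∧ s ≠ [] := by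
        have h4 : b ++ q = a ++ (q ++ r) := by rw [hb, h1]; simp
        rcases List.append_eq_append_iff.1 h4 with ⟨s, h5, h6⟩ | ⟨s, h5, h6⟩
        · exfalso
          have h7 := congrArg List.length h6
          have h8 : 0 < r.length := List.length_pos_iff.2 h3
          rw [List.length_append, List.length_append] at h7
          omega
        · refine ⟨s, h6, ?_⟩
          rintro rfl
          have h7 := congrArg List.length h6
          have h8 : 0 < r.length := List.length_pos_iff.2 h3
          rw [List.length_append, List.nil_append] at h7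
          omega
      obtain ⟨s, hs, hsne⟩ := hsuf
      obtain ⟨s', y, hs'⟩ : ∃ s' y, s = s' ++ [y] := by
        rcases List.eq_nil_or_concat s with h | ⟨a1, c1, h⟩
        · exact absurd h hsne
        · exact ⟨a1, c1, by rw [h, List.concat_eq_append]⟩
      obtain ⟨z, r', hr'⟩ : ∃ z r', r = z :: r' := by
        cases r with
        | nil => exact absurd rfl h3
        | cons z r' => exact ⟨z, r', rfl⟩
      have hpal := hB ((q ++ r).length + 2) Set.univ q f c' (q ++ r) hq2 trivial trivial hfR le_rfl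
        ⟨z, r', trivial, by rw [hr']⟩ ⟨y, s', trivial, by rw [hs, hs']; simp⟩ (by
          intro u g g' u' _ _ hdec
          by_contra hne
          push Not at hne
          obtain ⟨u1, u2, hu⟩ := mid_decomp hdec hne.1 hne.2
          have h9 := hmin (a ++ u1 ++ [g]) (g' :: u2) (by
            rw [h1, List.append_assoc a q r, hu]; simp) (by simp)
          have h10 := congrArg List.length hu
          simp at h9 h10
          omega)
      have h11 := hq3 (q ++ r) ⟨a, by rw [h1]; simp⟩ hpal
      have h12 : 0 < r.length := List.length_pos_iff.2 h3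
      rw [List.length_append] at h11
      omega
    have hset : palFactors (w ++ [x]) = insert q (palFactors w) := by
      ext p
      simp only [palFactors, Set.mem_ofPred_eq, Set.mem_insert_iff]
      constructor
      · rintro ⟨h1, h2⟩
        rcases List.infix_concat_iff.1 h1 with h3 | h3
        · by_cases hpq : p = q
          · exact Or.inl hpq
          · right
            refine ⟨?_, h2⟩
            have hle := hq3 p h3 h2
            have hpsq : p <:+ q := List.suffix_of_suffix_length_le h3 ⟨b, hb⟩ hle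
            have hppq : p <+: q := by
              have := List.reverse_prefix.2 hpsq
              rw [h2, hq2] at this
              exact this
            obtain ⟨r, hr⟩ := hppq
            have hrne : r ≠ [] := by
              rintro rfl
              exact hpq (by simpa using hr)
            obtain ⟨r1, z, hrz⟩ : ∃ r1 z, r = r1 ++ [z] := by
              rcases List.eq_nil_or_concat r with h | ⟨a1, c1, h⟩
              · exact absurd h hrne
              · exact ⟨a1, c1, by rw [h, List.concat_eq_append]⟩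
            have h5 : b ++ p ++ r1 ++ [z] = w ++ [x] := by
              rw [← hb, ← hr, hrz]; simp
            have h6 := List.append_inj_left' h5 rfl
            exact ⟨b, r1, h6⟩
        · exact Or.inr ⟨h3, h2⟩
      · rintro (rfl | ⟨h1, h2⟩)
        · exact ⟨⟨b, [], by rw [hb]; simp⟩, hq2⟩
        · exact ⟨h1.trans ⟨[], [x], rfl⟩, h2⟩
    have hnm : q ∉ palFactors w := fun h => hqnot h.1
    refine ⟨?_, ?_⟩
    · rw [hset]; exact hfin.insert q
    · unfold Rich at hrich ⊢
      rw [hset, Set.ncard_insert_of_notMem hnm hfin, hrich]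
      simp

theorem general {A B : Type} (u : ℕ → A) (hu : Episturmian u) (ζ : A → B) :
    RichWord (fun n => ζ (u n)) := by
  have hE := epi_factors hu
  intro w hw
  have hw' : w ∈ img ζ (factors u) := by
    obtain ⟨i, n, rfl⟩ := hw
    exact ⟨_, ⟨i, n, rfl⟩, by simp [List.map_map, Function.comp]⟩
  refine (rich_of_PB (V := img ζ (factors u)) ?_ ?_ (fun N => (main N B _ ζ hE).2) w hw').2
  · rintro x w y ⟨v, hv, hv2⟩
    obtain ⟨v1, v2, h1, h2, h3⟩ := List.append_eq_map_iff.1 hv2
    obtain ⟨v3, v4, h4, h5, h6⟩ := List.append_eq_map_iff.1 h2.symm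
    exact ⟨v4, hE.fac' hv ⟨v3, v2, by rw [h1, h4]⟩, h6.symm⟩
  · rintro w ⟨v, hv, rfl⟩
    obtain ⟨c, hc⟩ := hE.ext_left hv
    obtain ⟨c', hc'⟩ := hE.ext_right hc
    exact ⟨ζ c, ζ c', _, hc', by simp⟩

/-- The binary projection determined by the set `A'` of letters: letters in `A'` are mapped to
`true`, the other letters to `false`. -/
noncomputable def binaryProjection {A : Type} (A' : Set A) : A → Bool := fun a => decide (a ∈ A')

/-- Every binary projection of an episturmian word is rich; more generally the image of an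
episturmian word under any letter-to-letter map is rich. -/
theorem result :
    (∀ (A : Type) [Fintype A] (u : ℕ → A), Episturmian u → ∀ A' : Set A, A' ≠ Set.univ →
      RichWord (fun n => binaryProjection A' (u n))) ∧
    (∀ (A B : Type) (u : ℕ → A), Episturmian u → ∀ ζ : A → B, RichWord (fun n => ζ (u n))) :=
  ⟨fun _ _ u hu A' _ => general u hu (binaryProjection A'), fun _ _ u hu ζ => general u hu ζ⟩

end partG

end Pool.Agent.Results.MP_8d80dd_co.ProjectionsRich
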